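import Mathlib

set_option autoImplicit false

namespace Pool.Agent.X223.EXT

open Finset

/-- A two-party communication protocol with private and public randomness, as a finite binary tree: at a leaf `output o`
the protocol ends with the output `o`; at a node `alice p l r` Alice, who holds `x`, sends the bit `1` with probability
`p x` and the bit `0` with probability `1 - p x`; at a node `bob p l r` Bob, who holds `y`, sends `1` with probability
`p y`; at a node `coin p l r` a public coin shows `1` with probability `p`. After the bit `0` the protocol continues with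
`l`, after the bit `1` with `r`. -/
inductive Protocol (X Y O : Type) : Type
  | output (o : O) : Protocol X Y O
  | alice (p : X → ℝ) (l r : Protocol X Y O) : Protocol X Y O
  | bob (p : Y → ℝ) (l r : Protocol X Y O) : Protocol X Y O
  | coin (p : ℝ) (l r : Protocol X Y O) : Protocol X Y O

namespace Protocol

variable {X Y O : Type}

/-- All the probabilities of the protocol lie between `0` and `1`. -/
def Valid : Protocol X Y O → Prop
  | output _ => True
  | alice p l r => (∀ x, 0 ≤ p x ∧ p x ≤ 1) ∧ l.Valid ∧ r.Valid
  | bob p l r => (∀ y, 0 ≤ p y ∧ p y ≤ 1) ∧ l.Valid ∧ r.Valid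
  | coin p l r => (0 ≤ p ∧ p ≤ 1) ∧ l.Valid ∧ r.Valid

/-- The set of the transcripts: the strings of the bits which lead from the root to a leaf. -/
def transcripts : Protocol X Y O → Finset (List Bool)
  | output _ => {[]}
  | alice _ l r => l.transcripts.image (List.cons false) ∪ r.transcripts.image (List.cons true)
  | bob _ l r => l.transcripts.image (List.cons false) ∪ r.transcripts.image (List.cons true)
  | coin _ l r => l.transcripts.image (List.cons false) ∪ r.transcripts.image (List.cons true)

/-- The probability of the transcript `t` when the inputs are `x` and `y`. -/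
def prob (x : X) (y : Y) : Protocol X Y O → List Bool → ℝ
  | output _, [] => 1
  | output _, _ :: _ => 0
  | alice _ _ _, [] => 0
  | alice p l _, false :: t => (1 - p x) * l.prob x y t
  | alice p _ r, true :: t => p x * r.prob x y t
  | bob _ _ _, [] => 0
  | bob p l _, false :: t => (1 - p y) * l.prob x y t
  | bob p _ r, true :: t => p y * r.prob x y t
  | coin _ _ _, [] => 0
  | coin p l _, false :: t => (1 - p) * l.prob x y t
  | coin p _ r, true :: t => p * r.prob x y t

/-- The output of the protocol after the transcript `t`. -/
def outputOf : Protocol X Y O → List Bool → Option O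
  | output o, _ => some o
  | alice _ _ _, [] => none
  | alice _ l _, false :: t => l.outputOf t
  | alice _ _ r, true :: t => r.outputOf t
  | bob _ _ _, [] => none
  | bob _ l _, false :: t => l.outputOf t
  | bob _ _ r, true :: t => r.outputOf t
  | coin _ _ _, [] => none
  | coin _ l _, false :: t => l.outputOf t
  | coin _ _ r, true :: t => r.outputOf t

/-- The number of the bits sent by Alice and Bob in the transcript `t` (public coins are free). -/
def bits : Protocol X Y O → List Bool → ℕ
  | output _, _ => 0
  | alice _ _ _, [] => 0
  | alice _ l _, false :: t => 1 + l.bits t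
  | alice _ _ r, true :: t => 1 + r.bits t
  | bob _ _ _, [] => 0
  | bob _ l _, false :: t => 1 + l.bits t
  | bob _ _ r, true :: t => 1 + r.bits t
  | coin _ _ _, [] => 0
  | coin _ l _, false :: t => l.bits t
  | coin _ _ r, true :: t => r.bits t

/-- The protocol computes `F` without error: on all inputs, every transcript of positive probability ends with the
output `F x y`. -/
def ZeroError (P : Protocol X Y O) (F : X → Y → O) : Prop :=
  ∀ x y, ∀ t ∈ P.transcripts, P.prob x y t ≠ 0 → P.outputOf t = some (F x y)

variable [Fintype X] [Fintype Y]

/-- The probability of the transcript `t` when the inputs have the distribution `μ`. -/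
noncomputable def probOf (μ : X × Y → ℝ) (P : Protocol X Y O) (t : List Bool) : ℝ :=
  ∑ z : X × Y, μ z * P.prob z.1 z.2 t

/-- The external information cost `I(Π; X Y)` in bits: the mutual information of the transcript (with the public coins)
and the pair of the inputs, `∑_{t, x, y} μ(x, y) Pr[t | x, y] log₂ (Pr[t | x, y] / Pr[t])`. -/
noncomputable def extInfo (μ : X × Y → ℝ) (P : Protocol X Y O) : ℝ :=
  ∑ t ∈ P.transcripts, ∑ z : X × Y, μ z * P.prob z.1 z.2 t * Real.logb 2 (P.prob z.1 z.2 t / P.probOf μ t)

/-- The expected number of the bits exchanged when the inputs have the distribution `μ`. -/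
noncomputable def expBits (μ : X × Y → ℝ) (P : Protocol X Y O) : ℝ :=
  ∑ t ∈ P.transcripts, ∑ z : X × Y, μ z * P.prob z.1 z.2 t * P.bits t

end Protocol

variable {X Y O : Type} [Fintype X] [Fintype Y]

/-- `μ` is a probability distribution on the pairs of inputs. -/
def IsDist (μ : X × Y → ℝ) : Prop := (∀ z, 0 ≤ μ z) ∧ ∑ z, μ z = 1

/-- The zero-error external information complexity of `F` under `μ`. -/
noncomputable def ICext (F : X → Y → O) (μ : X × Y → ℝ) : ℝ :=
  sInf {c : ℝ | ∃ P : Protocol X Y O, P.Valid ∧ P.ZeroError F ∧ c = P.extInfo μ}

/-- The least expected number of bits of a zero-error protocol for `F`, for inputs with the distribution `μ`. -/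
noncomputable def CC (F : X → Y → O) (μ : X × Y → ℝ) : ℝ :=
  sInf {c : ℝ | ∃ P : Protocol X Y O, P.Valid ∧ P.ZeroError F ∧ c = P.expBits μ}

/-- The task of computing `F` on `n` coordinates. -/
def copies (n : ℕ) (F : X → Y → O) : (Fin n → X) → (Fin n → Y) → (Fin n → O) := fun x y i => F (x i) (y i)

/-- The product distribution: `n` independent pairs of inputs with the distribution `μ`. -/
def copiesDist (n : ℕ) (μ : X × Y → ℝ) : (Fin n → X) × (Fin n → Y) → ℝ := fun z => ∏ i, μ (z.1 i, z.2 i)

end Pool.Agent.X223.EXT
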