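import Mathlib
import Pool.Agent.X223.EXT.Defs

set_option autoImplicit false

namespace Pool.Agent.X223.EXT

open Finset

namespace Protocol

variable {X Y O : Type}

lemma sum_two (A B : Finset (List Bool)) (f : List Bool → ℝ) :
    ∑ t ∈ A.image (List.cons false) ∪ B.image (List.cons true), f t =
      ∑ t ∈ A, f (false :: t) + ∑ t ∈ B, f (true :: t) := by
  rw [sum_union, sum_image, sum_image]
  · intro a _ b _ h; simpa using h
  · intro a _ b _ h; simpa using h
  · rw [disjoint_left]
    intro t h1 h2
    simp only [mem_image] at h1 h2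
    obtain ⟨a, _, rfl⟩ := h1
    obtain ⟨b, _, hb⟩ := h2
    simp at hb

lemma sum_prob (x : X) (y : Y) (P : Protocol X Y O) : ∑ t ∈ P.transcripts, P.prob x y t = 1 := by
  induction P with
  | output o => simp [transcripts, prob]
  | alice p l r ihl ihr => rw [transcripts, sum_two]; simp only [prob, ← mul_sum, ihl, ihr]; ring
  | bob p l r ihl ihr => rw [transcripts, sum_two]; simp only [prob, ← mul_sum, ihl, ihr]; ring
  | coin p l r ihl ihr => rw [transcripts, sum_two]; simp only [prob, ← mul_sum, ihl, ihr]; ring

/-- Alice's factor of the probability -/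
def pa (x : X) : Protocol X Y O → List Bool → ℝ
  | output _, [] => 1
  | output _, _ :: _ => 0
  | alice _ _ _, [] => 0
  | alice p l _, false :: t => (1 - p x) * l.pa x t
  | alice p _ r, true :: t => p x * r.pa x t
  | bob _ _ _, [] => 0
  | bob _ l _, false :: t => l.pa x t
  | bob _ _ r, true :: t => r.pa x t
  | coin _ _ _, [] => 0
  | coin p l _, false :: t => (1 - p) * l.pa x t
  | coin p _ r, true :: t => p * r.pa x t

/-- Bob's factor of the probability -/
def pb (y : Y) : Protocol X Y O → List Bool → ℝ
  | output _, [] => 1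
  | output _, _ :: _ => 0
  | alice _ _ _, [] => 0
  | alice _ l _, false :: t => l.pb y t
  | alice _ _ r, true :: t => r.pb y t
  | bob _ _ _, [] => 0
  | bob p l _, false :: t => (1 - p y) * l.pb y t
  | bob p _ r, true :: t => p y * r.pb y t
  | coin _ _ _, [] => 0
  | coin _ l _, false :: t => l.pb y t
  | coin _ _ r, true :: t => r.pb y t

lemma prob_eq (x : X) (y : Y) (P : Protocol X Y O) (t : List Bool) : P.prob x y t = P.pa x t * P.pb y t := by
  induction P generalizing t with
  | output o => cases t <;> simp [prob, pa, pb]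
  | alice p l r ihl ihr => rcases t with _ | ⟨b, t⟩ <;> [simp [prob, pa, pb]; (cases b <;> simp only [prob, pa, pb, ihl, ihr] <;> ring)]
  | bob p l r ihl ihr => rcases t with _ | ⟨b, t⟩ <;> [simp [prob, pa, pb]; (cases b <;> simp only [prob, pa, pb, ihl, ihr] <;> ring)]
  | coin p l r ihl ihr => rcases t with _ | ⟨b, t⟩ <;> [simp [prob, pa, pb]; (cases b <;> simp only [prob, pa, pb, ihl, ihr] <;> ring)]

lemma pa_nonneg (x : X) {P : Protocol X Y O} (hP : P.Valid) (t : List Bool) : 0 ≤ P.pa x t := by
  induction P generalizing t with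
  | output o => cases t <;> simp [pa]
  | alice p l r ihl ihr =>
    rcases t with _ | ⟨b, t⟩
    · simp [pa]
    · cases b
      · exact mul_nonneg (sub_nonneg.2 (hP.1 x).2) (ihl hP.2.1 t)
      · exact mul_nonneg (hP.1 x).1 (ihr hP.2.2 t)
  | bob p l r ihl ihr =>
    rcases t with _ | ⟨b, t⟩
    · simp [pa]
    · cases b
      · exact ihl hP.2.1 t
      · exact ihr hP.2.2 t
  | coin p l r ihl ihr =>
    rcases t with _ | ⟨b, t⟩
    · simp [pa]
    · cases b
      · exact mul_nonneg (sub_nonneg.2 hP.1.2) (ihl hP.2.1 t)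
      · exact mul_nonneg hP.1.1 (ihr hP.2.2 t)

lemma pb_nonneg (y : Y) {P : Protocol X Y O} (hP : P.Valid) (t : List Bool) : 0 ≤ P.pb y t := by
  induction P generalizing t with
  | output o => cases t <;> simp [pb]
  | bob p l r ihl ihr =>
    rcases t with _ | ⟨b, t⟩
    · simp [pb]
    · cases b
      · exact mul_nonneg (sub_nonneg.2 (hP.1 y).2) (ihl hP.2.1 t)
      · exact mul_nonneg (hP.1 y).1 (ihr hP.2.2 t)
  | alice p l r ihl ihr =>
    rcases t with _ | ⟨b, t⟩
    · simp [pb]
    · cases b
      · exact ihl hP.2.1 t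
      · exact ihr hP.2.2 t
  | coin p l r ihl ihr =>
    rcases t with _ | ⟨b, t⟩
    · simp [pb]
    · cases b
      · exact ihl hP.2.1 t
      · exact ihr hP.2.2 t

lemma prob_nonneg (x : X) (y : Y) {P : Protocol X Y O} (hP : P.Valid) (t : List Bool) : 0 ≤ P.prob x y t := by
  rw [prob_eq]; exact mul_nonneg (pa_nonneg x hP t) (pb_nonneg y hP t)

/-- the expected number of bits on given inputs -/
noncomputable def cost (x : X) (y : Y) (P : Protocol X Y O) : ℝ := ∑ t ∈ P.transcripts, P.prob x y t * P.bits t

/-- all the transcripts of positive probability end with `o` -/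
def OK (x : X) (y : Y) (o : O) (P : Protocol X Y O) : Prop :=
  ∀ t ∈ P.transcripts, P.prob x y t ≠ 0 → P.outputOf t = some o

lemma cost_output (x : X) (y : Y) (o : O) : cost x y (output o : Protocol X Y O) = 0 := by
  simp [cost, transcripts, bits]

lemma sum_aux (x : X) (y : Y) (c : ℝ) (P : Protocol X Y O) :
    ∑ t ∈ P.transcripts, c * P.prob x y t * (1 + (P.bits t : ℝ)) = c * (1 + ∑ t ∈ P.transcripts, P.prob x y t * P.bits t) := by
  have h1 := sum_prob x y P
  calc ∑ t ∈ P.transcripts, c * P.prob x y t * (1 + (P.bits t : ℝ))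
      = c * (∑ t ∈ P.transcripts, P.prob x y t + ∑ t ∈ P.transcripts, P.prob x y t * P.bits t) := by
        rw [← sum_add_distrib, mul_sum]
        exact sum_congr rfl fun t _ => by ring
    _ = _ := by rw [h1]

lemma cost_alice (x : X) (y : Y) (p : X → ℝ) (l r : Protocol X Y O) :
    cost x y (alice p l r) = 1 + ((1 - p x) * cost x y l + p x * cost x y r) := by
  unfold cost
  rw [transcripts, sum_two]
  simp only [prob, bits]
  push_cast
  rw [sum_aux, sum_aux]; ring

lemma cost_bob (x : X) (y : Y) (p : Y → ℝ) (l r : Protocol X Y O) :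
    cost x y (bob p l r) = 1 + ((1 - p y) * cost x y l + p y * cost x y r) := by
  unfold cost
  rw [transcripts, sum_two]
  simp only [prob, bits]
  push_cast
  rw [sum_aux, sum_aux]; ring

lemma ok_output (x : X) (y : Y) (o : O) : OK x y o (output o : Protocol X Y O) := by
  intro t _ _; rfl

lemma ok_alice {x : X} {y : Y} {o : O} {p : X → ℝ} {l r : Protocol X Y O} (hl : p x ≠ 1 → OK x y o l)
    (hr : p x ≠ 0 → OK x y o r) : OK x y o (alice p l r) := by
  intro t ht hp
  rw [transcripts, mem_union, mem_image, mem_image] at ht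
  rcases ht with ⟨t, ht, rfl⟩ | ⟨t, ht, rfl⟩
  · simp only [prob] at hp
    exact hl (fun h => hp (by rw [h]; ring)) t ht (right_ne_zero_of_mul hp)
  · simp only [prob] at hp
    exact hr (left_ne_zero_of_mul hp) t ht (right_ne_zero_of_mul hp)

lemma ok_bob {x : X} {y : Y} {o : O} {p : Y → ℝ} {l r : Protocol X Y O} (hl : p y ≠ 1 → OK x y o l)
    (hr : p y ≠ 0 → OK x y o r) : OK x y o (bob p l r) := by
  intro t ht hp
  rw [transcripts, mem_union, mem_image, mem_image] at ht
  rcases ht with ⟨t, ht, rfl⟩ | ⟨t, ht, rfl⟩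
  · simp only [prob] at hp
    exact hl (fun h => hp (by rw [h]; ring)) t ht (right_ne_zero_of_mul hp)
  · simp only [prob] at hp
    exact hr (left_ne_zero_of_mul hp) t ht (right_ne_zero_of_mul hp)

/-! Messages of several bits. -/

/-- Alice sends `k` bits. -/
noncomputable def sendA : (k : ℕ) → (X → Fin k → Bool) → ((Fin k → Bool) → Protocol X Y O) → Protocol X Y O
  | 0, _, c => c Fin.elim0
  | k + 1, g, c => alice (fun x => if g x 0 then 1 else 0)
      (sendA k (fun x i => g x i.succ) fun w => c (Fin.cons false w))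
      (sendA k (fun x i => g x i.succ) fun w => c (Fin.cons true w))

/-- Bob sends `k` bits. -/
noncomputable def sendB : (k : ℕ) → (Y → Fin k → Bool) → ((Fin k → Bool) → Protocol X Y O) → Protocol X Y O
  | 0, _, c => c Fin.elim0
  | k + 1, g, c => bob (fun y => if g y 0 then 1 else 0)
      (sendB k (fun y i => g y i.succ) fun w => c (Fin.cons false w))
      (sendB k (fun y i => g y i.succ) fun w => c (Fin.cons true w))

lemma elim0_eq (w : Fin 0 → Bool) : (Fin.elim0 : Fin 0 → Bool) = w := funext fun i => i.elim0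

lemma cons_eq {k : ℕ} (w : Fin (k + 1) → Bool) {b : Bool} (h : w 0 = b) :
    (Fin.cons b (fun i => w i.succ) : Fin (k + 1) → Bool) = w := by
  subst h; exact Fin.cons_self_tail w

lemma valid_sendA (k : ℕ) (g : X → Fin k → Bool) (c : (Fin k → Bool) → Protocol X Y O) (hc : ∀ w, (c w).Valid) :
    (sendA k g c).Valid := by
  induction k with
  | zero => exact hc _
  | succ k ih =>
    refine ⟨fun x => ?_, ih _ _ fun w => hc _, ih _ _ fun w => hc _⟩
    dsimp only
    split_ifs <;> norm_num

lemma valid_sendB (k : ℕ) (g : Y → Fin k → Bool) (c : (Fin k → Bool) → Protocol X Y O) (hc : ∀ w, (c w).Valid) :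
    (sendB k g c).Valid := by
  induction k with
  | zero => exact hc _
  | succ k ih =>
    refine ⟨fun x => ?_, ih _ _ fun w => hc _, ih _ _ fun w => hc _⟩
    dsimp only
    split_ifs <;> norm_num

lemma cost_sendA (x : X) (y : Y) (k : ℕ) (g : X → Fin k → Bool) (c : (Fin k → Bool) → Protocol X Y O) :
    cost x y (sendA k g c) = k + cost x y (c (g x)) := by
  induction k with
  | zero => rw [sendA, elim0_eq (g x)]; simp
  | succ k ih =>
    rw [sendA, cost_alice]
    cases h : g x 0
    · simp only [Bool.false_eq_true, if_false]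
      rw [ih, ih, cons_eq (g x) h]; push_cast; ring
    · simp only [if_true]
      rw [ih, ih, cons_eq (g x) h]; push_cast; ring

lemma cost_sendB (x : X) (y : Y) (k : ℕ) (g : Y → Fin k → Bool) (c : (Fin k → Bool) → Protocol X Y O) :
    cost x y (sendB k g c) = k + cost x y (c (g y)) := by
  induction k with
  | zero => rw [sendB, elim0_eq (g y)]; simp
  | succ k ih =>
    rw [sendB, cost_bob]
    cases h : g y 0
    · simp only [Bool.false_eq_true, if_false]
      rw [ih, ih, cons_eq (g y) h]; push_cast; ring
    · simp only [if_true]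
      rw [ih, ih, cons_eq (g y) h]; push_cast; ring

lemma ok_sendA {x : X} {y : Y} {o : O} (k : ℕ) (g : X → Fin k → Bool) (c : (Fin k → Bool) → Protocol X Y O)
    (h : OK x y o (c (g x))) : OK x y o (sendA k g c) := by
  induction k with
  | zero => rw [sendA, elim0_eq (g x)]; exact h
  | succ k ih =>
    rw [sendA]
    apply ok_alice
    · intro h1
      have h0 : g x 0 = false := by
        cases hg : g x 0 with
        | false => rfl
        | true => simp [hg] at h1
      apply ih
      rw [cons_eq (g x) h0]; exact h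
    · intro h1
      have h0 : g x 0 = true := by
        cases hg : g x 0 with
        | false => simp [hg] at h1
        | true => rfl
      apply ih
      rw [cons_eq (g x) h0]; exact h

lemma ok_sendB {x : X} {y : Y} {o : O} (k : ℕ) (g : Y → Fin k → Bool) (c : (Fin k → Bool) → Protocol X Y O)
    (h : OK x y o (c (g y))) : OK x y o (sendB k g c) := by
  induction k with
  | zero => rw [sendB, elim0_eq (g y)]; exact h
  | succ k ih =>
    rw [sendB]
    apply ok_bob
    · intro h1
      have h0 : g y 0 = false := by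
        cases hg : g y 0 with
        | false => rfl
        | true => simp [hg] at h1
      apply ih
      rw [cons_eq (g y) h0]; exact h
    · intro h1
      have h0 : g y 0 = true := by
        cases hg : g y 0 with
        | false => simp [hg] at h1
        | true => rfl
      apply ih
      rw [cons_eq (g y) h0]; exact h

/-! Messages from a finite type. -/

section msg
variable {W : Type} [Fintype W] [Nonempty W]

lemma exists_code {k : ℕ} (h : Fintype.card W ≤ 2 ^ k) : ∃ (e : W → Fin k → Bool) (d : (Fin k → Bool) → W), ∀ w, d (e w) = w := by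
  have h1 : Fintype.card W ≤ Fintype.card (Fin k → Bool) := by simpa using h
  obtain ⟨e⟩ := Function.Embedding.nonempty_of_card_le h1
  exact ⟨e, Function.invFun e, fun w => Function.leftInverse_invFun e.injective w⟩

theorem exists_msgA {k : ℕ} (h : Fintype.card W ≤ 2 ^ k) (g : X → W) (c : W → Protocol X Y O) (hc : ∀ w, (c w).Valid) :
    ∃ P : Protocol X Y O, P.Valid ∧ (∀ x y, cost x y P = k + cost x y (c (g x))) ∧
      ∀ x y o, OK x y o (c (g x)) → OK x y o P := by
  obtain ⟨e, d, hed⟩ := exists_code (W := W) h
  refine ⟨sendA k (fun x => e (g x)) (fun b => c (d b)), valid_sendA _ _ _ fun w => hc _, fun x y => ?_, fun x y o ho => ?_⟩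
  · rw [cost_sendA, hed]
  · apply ok_sendA; rw [hed]; exact ho

theorem exists_msgB {k : ℕ} (h : Fintype.card W ≤ 2 ^ k) (g : Y → W) (c : W → Protocol X Y O) (hc : ∀ w, (c w).Valid) :
    ∃ P : Protocol X Y O, P.Valid ∧ (∀ x y, cost x y P = k + cost x y (c (g y))) ∧
      ∀ x y o, OK x y o (c (g y)) → OK x y o P := by
  obtain ⟨e, d, hed⟩ := exists_code (W := W) h
  refine ⟨sendB k (fun x => e (g x)) (fun b => c (d b)), valid_sendB _ _ _ fun w => hc _, fun x y => ?_, fun x y o ho => ?_⟩
  · rw [cost_sendB, hed]
  · apply ok_sendB; rw [hed]; exact ho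

end msg

end Protocol

end Pool.Agent.X223.EXT
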