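import Mathlib

set_option autoImplicit false

namespace Pool.Agent.X223.EXT

open Finset Real

/-! Averages, entropies and the truncated mixing estimate. -/

section Avg
variable {R : Type} [Fintype R] [Nonempty R]

/-- the average of a function on a finite type -/
noncomputable def avg (f : R → ℝ) : ℝ := (∑ r, f r) / Fintype.card R

lemma card_pos' : (0 : ℝ) < Fintype.card R := by exact_mod_cast Fintype.card_pos

lemma avg_add (f g : R → ℝ) : avg (fun r => f r + g r) = avg f + avg g := by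
  unfold avg; rw [sum_add_distrib, add_div]

lemma avg_sub (f g : R → ℝ) : avg (fun r => f r - g r) = avg f - avg g := by
  unfold avg; rw [sum_sub_distrib, sub_div]

lemma avg_const_mul (c : ℝ) (f : R → ℝ) : avg (fun r => c * f r) = c * avg f := by
  unfold avg; rw [← mul_sum, mul_div_assoc]

lemma avg_mul_const (c : ℝ) (f : R → ℝ) : avg (fun r => f r * c) = avg f * c := by
  unfold avg; rw [← sum_mul]; ring

lemma avg_const (c : ℝ) : avg (fun _ : R => c) = c := by
  unfold avg; rw [sum_const, card_univ, nsmul_eq_mul, mul_comm, mul_div_assoc, div_self card_pos'.ne', mul_one]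

lemma avg_mono {f g : R → ℝ} (h : ∀ r, f r ≤ g r) : avg f ≤ avg g := by
  unfold avg; exact div_le_div_of_nonneg_right (sum_le_sum fun r _ => h r) card_pos'.le

lemma avg_nonneg {f : R → ℝ} (h : ∀ r, 0 ≤ f r) : 0 ≤ avg f := by
  unfold avg; exact div_nonneg (sum_nonneg fun r _ => h r) card_pos'.le

lemma eq_zero_of_avg {f : R → ℝ} (h : ∀ r, 0 ≤ f r) (h0 : avg f = 0) (r : R) : f r = 0 := by
  unfold avg at h0
  rw [div_eq_zero_iff] at h0
  rcases h0 with h0 | h0
  · exact (sum_eq_zero_iff_of_nonneg fun r _ => h r).1 h0 r (mem_univ r)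
  · exact absurd h0 card_pos'.ne'

/-- the entropy functional -/
noncomputable def Ent (a : R → ℝ) : ℝ := avg (fun r => a r * log (a r)) - avg a * log (avg a)

lemma mul_log_div {a A : ℝ} (ha : 0 ≤ a) (hA : 0 < A) : a * log (a / A) = a * log a - a * log A := by
  rcases ha.eq_or_lt with rfl | h
  · simp
  · rw [log_div h.ne' hA.ne']; ring

lemma mul_log_ge {a A : ℝ} (ha : 0 ≤ a) (hA : 0 < A) : a - A ≤ a * log (a / A) := by
  rcases ha.eq_or_lt with rfl | h
  · simp [hA.le]
  · have h1 : log (A / a) ≤ A / a - 1 := log_le_sub_one_of_pos (div_pos hA h)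
    have h2 : log (a / A) = - log (A / a) := by rw [← log_inv, inv_div]
    rw [h2]
    have h3 : a * log (A / a) ≤ a * (A / a - 1) := mul_le_mul_of_nonneg_left h1 ha
    have h4 : a * (A / a - 1) = A - a := by field_simp
    linarith

lemma ent_eq {a : R → ℝ} (ha : ∀ r, 0 ≤ a r) (hA : 0 < avg a) :
    Ent a = avg (fun r => a r * log (a r / avg a)) := by
  have : (fun r => a r * log (a r / avg a)) = fun r => a r * log (a r) - a r * log (avg a) := by
    funext r; exact mul_log_div (ha r) hA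
  rw [this, avg_sub, avg_mul_const]; rfl

lemma ent_nonneg {a : R → ℝ} (ha : ∀ r, 0 ≤ a r) : 0 ≤ Ent a := by
  rcases (avg_nonneg ha).eq_or_lt with h | h
  · have h0 : ∀ r, a r = 0 := eq_zero_of_avg ha h.symm
    have : a = fun _ => 0 := funext h0
    subst this
    unfold Ent; simp [avg]
  · rw [ent_eq ha h]
    have h1 : avg (fun r => a r - avg a) ≤ avg (fun r => a r * log (a r / avg a)) :=
      avg_mono fun r => mul_log_ge (ha r) h
    rw [avg_sub, avg_const] at h1
    linarith

lemma trunc_point {a A L : ℝ} (ha : 0 ≤ a) (hA : 0 < A) (hL : 1 < L) :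
    a - min a (L * A) ≤ (a * log (a / A) + A) / log L := by
  have hl : 0 < log L := log_pos hL
  have h1 := mul_log_ge ha hA
  rcases le_total a (L * A) with h | h
  · rw [min_eq_left h, sub_self]
    exact div_nonneg (by linarith) hl.le
  · rw [min_eq_right h]
    have hap : 0 < a := lt_of_lt_of_le (mul_pos (by linarith) hA) h
    have h2 : L ≤ a / A := by rw [le_div_iff₀ hA]; exact h
    have h3 : log L ≤ log (a / A) := log_le_log (by linarith) h2
    rw [le_div_iff₀ hl]
    have h4 : (a - L * A) * log L ≤ a * log L := mul_le_mul_of_nonneg_right (by nlinarith [mul_pos (show (0:ℝ) < L by linarith) hA]) hl.le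
    have h5 : a * log L ≤ a * log (a / A) := mul_le_mul_of_nonneg_left h3 ha
    linarith

lemma trunc_avg {a : R → ℝ} (ha : ∀ r, 0 ≤ a r) {L : ℝ} (hL : 1 < L) :
    avg a - avg (fun r => min (a r) (L * avg a)) ≤ (Ent a + avg a) / log L := by
  have hl : 0 < log L := log_pos hL
  rcases (avg_nonneg ha).eq_or_lt with h | h
  · have h0 : ∀ r, a r = 0 := eq_zero_of_avg ha h.symm
    have h1 : avg (fun r => min (a r) (L * avg a)) = 0 := by
      rw [← h, mul_zero]
      have : (fun r => min (a r) 0) = fun _ : R => (0 : ℝ) := by funext r; simp [h0 r]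
      rw [this, avg_const]
    rw [h1, ← h]
    have := ent_nonneg ha
    simp only [sub_zero, add_zero]
    exact div_nonneg this hl.le
  · rw [ent_eq ha h, ← avg_sub]
    have h1 : avg (fun r => a r - min (a r) (L * avg a)) ≤ avg (fun r => (a r * log (a r / avg a) + avg a) / log L) :=
      avg_mono fun r => trunc_point (ha r) h hL
    refine h1.trans (le_of_eq ?_)
    have : (fun r => (a r * log (a r / avg a) + avg a) / log L) = fun r => (a r * log (a r / avg a) + avg a) * (log L)⁻¹ := by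
      funext r; rw [div_eq_mul_inv]
    rw [this, avg_mul_const, avg_add, avg_const, div_eq_mul_inv]

lemma avg_mul_sq_le (f g : R → ℝ) : (avg fun r => f r * g r) ^ 2 ≤ (avg fun r => f r ^ 2) * (avg fun r => g r ^ 2) := by
  unfold avg
  rw [div_pow, div_mul_div_comm, ← sq]
  exact div_le_div_of_nonneg_right (sum_mul_sq_le_sq_mul_sq _ _ _) (by positivity)

end Avg

/-- An averaging operator with pairwise independence. -/
structure Mixing {R Ψ : Type} [Fintype R] [Fintype Ψ] (G : (R → ℝ) → Ψ → ℝ) (η : ℝ) : Prop where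
  nonneg : ∀ a : R → ℝ, (∀ r, 0 ≤ a r) → ∀ ψ, 0 ≤ G a ψ
  mono : ∀ a a' : R → ℝ, (∀ r, a r ≤ a' r) → ∀ ψ, G a ψ ≤ G a' ψ
  mean : ∀ a : R → ℝ, avg (G a) = avg a
  sq : ∀ a : R → ℝ, (∀ r, 0 ≤ a r) → avg (fun ψ => G a ψ ^ 2) ≤ avg a ^ 2 + η ^ 2 * avg (fun r => a r ^ 2)

section Mix
variable {R Ψ : Type} [Fintype R] [Fintype Ψ] [Nonempty R] [Nonempty Ψ]
  {G : (R → ℝ) → Ψ → ℝ} {η : ℝ}

/-- the truncated mixing estimate -/
lemma mix_lower (hG : Mixing G η) (hη : 0 ≤ η) {a : R → ℝ} {b : Ψ → ℝ} (ha : ∀ r, 0 ≤ a r) (hb : ∀ ψ, 0 ≤ b ψ)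
    {L : ℝ} (hL : 1 < L) :
    avg a * avg b * (1 - (2 / log L + η * L)) - (1 / log L) * (avg b * Ent a + avg a * Ent b)
      ≤ avg fun ψ => b ψ * G a ψ := by
  set A := avg a with hAd
  set B := avg b with hBd
  have hA : 0 ≤ A := avg_nonneg ha
  have hB : 0 ≤ B := avg_nonneg hb
  have hl : 0 < log L := log_pos hL
  have hL0 : 0 < L := by linarith
  set a' : R → ℝ := fun r => min (a r) (L * A) with ha'
  set b' : Ψ → ℝ := fun r => min (b r) (L * B) with hb'
  have ha'0 : ∀ r, 0 ≤ a' r := fun r => le_min (ha r) (by positivity)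
  have hb'0 : ∀ r, 0 ≤ b' r := fun r => le_min (hb r) (by positivity)
  have ta := trunc_avg ha hL
  have tb := trunc_avg hb hL
  rw [← hAd] at ta
  rw [← hBd] at tb
  set A' := avg a' with hA'
  set B' := avg b' with hB'
  have hA'0 : 0 ≤ A' := avg_nonneg ha'0
  have hB'0 : 0 ≤ B' := avg_nonneg hb'0
  have hA'A : A' ≤ A := avg_mono fun r => min_le_left _ _
  have hB'B : B' ≤ B := avg_mono fun r => min_le_left _ _
  -- lower bound by the truncated functions
  have h1 : (avg fun ψ => b' ψ * G a' ψ) ≤ avg fun ψ => b ψ * G a ψ := by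
    refine avg_mono fun ψ => ?_
    exact mul_le_mul (min_le_left _ _) (hG.mono _ _ (fun r => min_le_left _ _) ψ) (hG.nonneg _ ha'0 ψ) (hb ψ)
  -- second moments
  have h2 : avg (fun ψ => b' ψ ^ 2) ≤ L * B * B := by
    calc avg (fun ψ => b' ψ ^ 2) ≤ avg (fun ψ => (L * B) * b ψ) := by
          refine avg_mono fun ψ => ?_
          rw [sq]
          exact mul_le_mul (min_le_right _ _) (min_le_left _ _) (hb'0 ψ) (by positivity)
      _ = L * B * B := by rw [avg_const_mul]
  have h3 : avg (fun r => a' r ^ 2) ≤ L * A * A := by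
    calc avg (fun ψ => a' ψ ^ 2) ≤ avg (fun ψ => (L * A) * a ψ) := by
          refine avg_mono fun ψ => ?_
          rw [sq]
          exact mul_le_mul (min_le_right _ _) (min_le_left _ _) (ha'0 ψ) (by positivity)
      _ = L * A * A := by rw [avg_const_mul]
  have hmean : avg (G a') = A' := hG.mean a'
  have h4 : avg (fun ψ => (G a' ψ - A') ^ 2) ≤ η ^ 2 * (L * A * A) := by
    have e : (fun ψ => (G a' ψ - A') ^ 2) = fun ψ => (G a' ψ ^ 2 - (2 * A') * G a' ψ) + A' ^ 2 := by
      funext ψ; ring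
    rw [e, avg_add, avg_sub, avg_const_mul, avg_const, hmean]
    have := hG.sq a' ha'0
    have h5 : η ^ 2 * avg (fun r => a' r ^ 2) ≤ η ^ 2 * (L * A * A) := mul_le_mul_of_nonneg_left h3 (by positivity)
    nlinarith
  have h5 : |avg fun ψ => b' ψ * (G a' ψ - A')| ≤ η * L * A * B := by
    apply abs_le_of_sq_le_sq _ (by positivity)
    calc (avg fun ψ => b' ψ * (G a' ψ - A')) ^ 2 ≤ avg (fun ψ => b' ψ ^ 2) * avg (fun ψ => (G a' ψ - A') ^ 2) :=
          avg_mul_sq_le _ _
      _ ≤ (L * B * B) * (η ^ 2 * (L * A * A)) := mul_le_mul h2 h4 (avg_nonneg fun _ => sq_nonneg _) (by positivity)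
      _ = (η * L * A * B) ^ 2 := by ring
  have h6 : (avg fun ψ => b' ψ * G a' ψ) = A' * B' + avg fun ψ => b' ψ * (G a' ψ - A') := by
    have : (fun ψ => b' ψ * G a' ψ) = fun ψ => A' * b' ψ + b' ψ * (G a' ψ - A') := by funext ψ; ring
    rw [this, avg_add, avg_const_mul]
  have h7 := (abs_le.1 h5).1
  -- products
  have h8 : A * B - (A - A') * B - A * (B - B') ≤ A' * B' := by nlinarith [mul_nonneg (sub_nonneg.2 hA'A) (sub_nonneg.2 hB'B)]
  have h9 : (A - A') * B ≤ (Ent a + A) / log L * B := mul_le_mul_of_nonneg_right ta hB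
  have h10 : A * (B - B') ≤ A * ((Ent b + B) / log L) := mul_le_mul_of_nonneg_left tb hA
  have h11 : A * B * (1 - (2 / log L + η * L)) - (1 / log L) * (B * Ent a + A * Ent b)
      = A * B - (Ent a + A) / log L * B - A * ((Ent b + B) / log L) - η * L * A * B := by
    field_simp; ring
  rw [h11]
  linarith

end Mix

end Pool.Agent.X223.EXT
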