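import Mathlib
import Pool.Agent.X223.EXT.Core

set_option autoImplicit false

namespace Pool.Agent.X223.EXT

open Finset Real

lemma pair_ineq {A A' B B' e e' h h' I1 I2 W δ δ' : ℝ} (hA : 0 ≤ A) (hA' : 0 ≤ A') (hB : 0 ≤ B) (hB' : 0 ≤ B')
    (he : 0 ≤ e) (he' : 0 ≤ e') (hh : 0 ≤ h) (hh' : 0 ≤ h') (hδ : 0 < δ) (hδ' : δ' ≤ 1 / 4)
    (hI1 : A * B' * (1 - δ') - δ * (B' * e + A * h') ≤ I1) (hI10 : 0 ≤ I1)
    (hI2 : A' * B * (1 - δ') - δ * (B * e' + A' * h) ≤ I2) (hI20 : 0 ≤ I2)
    (hW : A * B ≤ W) (hW' : A' * B' ≤ W) :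
    4 * √((A * B) * (A' * B')) ≤ 99.8 * I1 + 0.2 * I2 + (1 / 4) * ((B * e + A * h) + (B' * e' + A' * h')) + 128 * δ * W := by
  have hW0 : 0 ≤ W := le_trans (mul_nonneg hA hB) hW
  have hE : 0 ≤ B * e + A * h := by positivity
  have hE' : 0 ≤ B' * e' + A' * h' := by positivity
  have hδW : 0 ≤ 128 * δ * W := by positivity
  by_cases hz : 0 < A ∧ 0 < A' ∧ 0 < B ∧ 0 < B'
  · obtain ⟨pA, pA', pB, pB'⟩ := hz
    set x := e / A with hx
    set x' := e' / A' with hx'
    set y := h / B with hy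
    set y' := h' / B' with hy'
    have ex : e = A * x := by rw [hx]; field_simp
    have ex' : e' = A' * x' := by rw [hx']; field_simp
    have ey : h = B * y := by rw [hy]; field_simp
    have ey' : h' = B' * y' := by rw [hy']; field_simp
    have x0 : 0 ≤ x := by positivity
    have x0' : 0 ≤ x' := by positivity
    have y0 : 0 ≤ y := by positivity
    have y0' : 0 ≤ y' := by positivity
    rw [ex, ey'] at hI1
    rw [ex', ey] at hI2
    rw [ex, ex', ey, ey']
    have hAB' : 0 < A * B' := by positivity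
    have hA'B : 0 < A' * B := by positivity
    rcases le_total (δ * (x + y + x' + y')) (1 / 4) with hg | hg
    · -- good case
      have d1 := mul_nonneg hδ.le x0
      have d2 := mul_nonneg hδ.le x0'
      have d3 := mul_nonneg hδ.le y0
      have d4 := mul_nonneg hδ.le y0'
      have eg : δ * (x + y + x' + y') = δ * x + δ * y + δ * x' + δ * y' := by ring
      have h1 : A * B' / 2 ≤ I1 := by
        have q1 : δ * (x + y') ≤ 1 / 4 := by
          have : δ * (x + y') = δ * x + δ * y' := by ring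
          linarith
        have e1 : δ * (B' * (A * x) + A * (B' * y')) = (A * B') * (δ * (x + y')) := by ring
        have m1 : (A * B') * (δ * (x + y')) ≤ (A * B') * (1 / 4) := mul_le_mul_of_nonneg_left q1 hAB'.le
        have m2 : (A * B') * δ' ≤ (A * B') * (1 / 4) := mul_le_mul_of_nonneg_left hδ' hAB'.le
        have e2 : A * B' * (1 - δ') = A * B' - (A * B') * δ' := by ring
        linarith
      have h2 : A' * B / 2 ≤ I2 := by
        have q1 : δ * (x' + y) ≤ 1 / 4 := by
          have : δ * (x' + y) = δ * x' + δ * y := by ring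
          linarith
        have e1 : δ * (B * (A' * x') + A' * (B * y)) = (A' * B) * (δ * (x' + y)) := by ring
        have m1 : (A' * B) * (δ * (x' + y)) ≤ (A' * B) * (1 / 4) := mul_le_mul_of_nonneg_left q1 hA'B.le
        have m2 : (A' * B) * δ' ≤ (A' * B) * (1 / 4) := mul_le_mul_of_nonneg_left hδ' hA'B.le
        have e2 : A' * B * (1 - δ') = A' * B - (A' * B) * δ' := by ring
        linarith
      have h3 : √((A * B) * (A' * B')) = √(A * B') * √(A' * B) := by
        rw [← sqrt_mul hAB'.le]; congr 1; ring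
      have hu := sq_sqrt hAB'.le
      have hv := sq_sqrt hA'B.le
      rw [h3]
      set u := √(A * B')
      set v := √(A' * B)
      have h4 : 4 * (u * v) ≤ 49.9 * u ^ 2 + 0.1 * v ^ 2 := by
        have q1 : 0 ≤ (7 * u - (2 / 7) * v) ^ 2 := sq_nonneg _
        have q2 : (7 * u - (2 / 7) * v) ^ 2 = 49 * u ^ 2 - 4 * (u * v) + (4 / 49) * v ^ 2 := by ring
        have q3 := sq_nonneg u
        have q4 := sq_nonneg v
        linarith
      have hE1 : 0 ≤ B * (A * x) + A * (B * y) := by positivity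
      have hE2 : 0 ≤ B' * (A' * x') + A' * (B' * y') := by positivity
      rw [hu, hv] at h4
      linarith
    · -- bad case
      have key : ∀ P P' D E : ℝ, 0 ≤ P → 0 ≤ P' → P' ≤ W → E = P * D → 1 / 8 ≤ δ * D →
          4 * √(P * P') ≤ (1 / 4) * E + 128 * δ * W := by
        intro P P' D E hP hP' hPW hED hD
        rw [sqrt_mul hP]
        have hu := sq_sqrt hP
        have hv := sq_sqrt hP'
        set u := √P
        set v := √P'
        have h1 : 128 * (δ * (u * v)) ≤ u ^ 2 + 4096 * (δ ^ 2 * v ^ 2) := by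
          have q1 : 0 ≤ (u - 64 * δ * v) ^ 2 := sq_nonneg _
          have q2 : (u - 64 * δ * v) ^ 2 = u ^ 2 - 128 * (δ * (u * v)) + 4096 * (δ ^ 2 * v ^ 2) := by ring
          linarith
        have h2 : δ * (4 * (u * v)) ≤ δ * ((1 / 4) * E + 128 * δ * W) := by
          have h3 : P / 32 ≤ δ * ((1 / 4) * E) := by
            rw [hED]
            have : P * (1 / 8) ≤ P * (δ * D) := mul_le_mul_of_nonneg_left hD hP
            have e1 : δ * ((1 / 4) * (P * D)) = (1 / 4) * (P * (δ * D)) := by ring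
            linarith
          have h4 : δ * (128 * δ * P') ≤ δ * (128 * δ * W) := by
            apply mul_le_mul_of_nonneg_left _ hδ.le
            apply mul_le_mul_of_nonneg_left hPW (by positivity)
          have e2 : δ * (4 * (u * v)) = 4 * (δ * (u * v)) := by ring
          have e3 : δ * ((1 / 4) * E + 128 * δ * W) = δ * ((1 / 4) * E) + δ * (128 * δ * W) := by ring
          have e4 : δ * (128 * δ * P') = 128 * (δ ^ 2 * v ^ 2) := by rw [hv]; ring
          rw [e2, e3]
          rw [hu] at h1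
          linarith
        exact le_of_mul_le_mul_left h2 hδ
      have hE1 : 0 ≤ B * (A * x) + A * (B * y) := by positivity
      have hE2 : 0 ≤ B' * (A' * x') + A' * (B' * y') := by positivity
      rcases le_total (1 / 8) (δ * (x + y)) with h1 | h1
      · have := key (A * B) (A' * B') (x + y) (B * (A * x) + A * (B * y)) (by positivity) (by positivity) hW' (by ring) h1
        nlinarith
      · have h2 : 1 / 8 ≤ δ * (x' + y') := by
          have e1 : δ * (x + y + x' + y') = δ * (x + y) + δ * (x' + y') := by ring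
          linarith
        have := key (A' * B') (A * B) (x' + y') (B' * (A' * x') + A' * (B' * y')) (by positivity) (by positivity) hW (by ring) h2
        rw [mul_comm (A' * B') (A * B)] at this
        linarith
  · have h0 : (A * B) * (A' * B') = 0 := by
      by_contra hne
      apply hz
      have hAB : A * B ≠ 0 := left_ne_zero_of_mul hne
      have hAB' : A' * B' ≠ 0 := right_ne_zero_of_mul hne
      exact ⟨lt_of_le_of_ne hA (left_ne_zero_of_mul hAB).symm, lt_of_le_of_ne hA' (left_ne_zero_of_mul hAB').symm,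
        lt_of_le_of_ne hB (right_ne_zero_of_mul hAB).symm, lt_of_le_of_ne hB' (right_ne_zero_of_mul hAB').symm⟩
    rw [h0, sqrt_zero, mul_zero]
    linarith

lemma ent_single {P Q R W : ℝ} (hP : 0 ≤ P) (hQ : 0 ≤ Q) (hR : 0 ≤ R) (hW : W = P + Q + R) :
    -(2 * √(P * Q) + 2 * √(R * P)) ≤ P * log (P / W) := by
  rcases hP.eq_or_lt with h | h
  · rw [← h]; simp
  · have hWp : 0 < W := by linarith
    have h1 : log (√W / √P) ≤ √W / √P - 1 := log_le_sub_one_of_pos (by positivity)
    have h2 : log (P / W) = - (2 * log (√W / √P)) := by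
      have e1 : log (√W / √P) = log W / 2 - log P / 2 := by
        rw [log_div (sqrt_pos.2 hWp).ne' (sqrt_pos.2 h).ne', log_sqrt hWp.le, log_sqrt h.le]
      have e2 : log (P / W) = log P - log W := log_div h.ne' hWp.ne'
      rw [e1, e2]; ring
    rw [h2]
    have hu := sq_sqrt hP
    have h3 : P * log (√W / √P) ≤ P * (√W / √P - 1) := mul_le_mul_of_nonneg_left h1 hP
    have hsp : 0 < √P := sqrt_pos.2 h
    have h4 : P * (√W / √P - 1) = √P * (√W - √P) := by
      have hs : √P * √P = P := mul_self_sqrt hP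
      nth_rewrite 1 [← hs]
      field_simp
    have h5 : √W ≤ √P + √Q + √R := by
      rw [hW]
      calc √(P + Q + R) ≤ √(P + Q) + √R := sqrt_add_le_add_sqrt (by linarith) hR
        _ ≤ √P + √Q + √R := by
          have := sqrt_add_le_add_sqrt hP hQ
          linarith
    rw [sqrt_mul hP, sqrt_mul hR]
    have h6 : √P * (√W - √P) ≤ √P * (√Q + √R) := mul_le_mul_of_nonneg_left (by linarith) hsp.le
    have h7 : √P * (√Q + √R) = √P * √Q + √R * √P := by ring
    linarith
where
  sqrt_add_le_add_sqrt {x y : ℝ} (hx : 0 ≤ x) (hy : 0 ≤ y) : √(x + y) ≤ √x + √y := by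
    rw [sqrt_le_left (by positivity)]
    have h1 := sq_sqrt hx
    have h2 := sq_sqrt hy
    nlinarith [mul_nonneg (sqrt_nonneg x) (sqrt_nonneg y)]

lemma ent_three {P Q R W : ℝ} (hP : 0 ≤ P) (hQ : 0 ≤ Q) (hR : 0 ≤ R) (hW : W = P + Q + R) :
    -(4 * √(P * Q) + 4 * √(Q * R) + 4 * √(R * P)) ≤ P * log (P / W) + Q * log (Q / W) + R * log (R / W) := by
  have h1 := ent_single hP hQ hR hW
  have h2 := ent_single (W := W) hQ hR hP (by linarith)
  have h3 := ent_single (W := W) hR hP hQ (by linarith)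
  linarith

/-- the numerical core -/
lemma core_num (A B e h : Fin 3 → ℝ) (I : Fin 3 → Fin 3 → ℝ) {δ δ' Q w : ℝ}
    (hA : ∀ i, 0 ≤ A i) (hB : ∀ i, 0 ≤ B i) (he : ∀ i, 0 ≤ e i) (hh : ∀ i, 0 ≤ h i)
    (hI0 : ∀ i j, 0 ≤ I i j)
    (hI : ∀ i j, A i * B j * (1 - δ') - δ * (B j * e i + A i * h j) ≤ I i j)
    (hδ : 0 < δ) (hδ1 : δ ≤ 1 / 20000) (hδ' : δ' ≤ 1 / 2000) (hδ'0 : 0 ≤ δ') (hQ : 2000 ≤ Q)
    (hw : w = (∑ i, A i * B (i + 1)) + (∑ i, I i (i + 2)) / Q) :
    99.8 * w + 3 / Q * w ≤ (∑ i, (A i * B (i + 1) * log (A i * B (i + 1) / w) + (B (i + 1) * e i + A i * h (i + 1))))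
      + 99.9 * (∑ i, (I i (i + 1) + I i (i + 2))) + 0.2 * (∑ i, I i i) := by
  have hQ0 : 0 < Q := by linarith
  have c1 : (0 : Fin 3) + 1 = 1 := rfl
  have c2 : (1 : Fin 3) + 1 = 2 := rfl
  have c3 : (2 : Fin 3) + 1 = 0 := rfl
  have c4 : (0 : Fin 3) + 2 = 2 := rfl
  have c5 : (1 : Fin 3) + 2 = 0 := rfl
  have c6 : (2 : Fin 3) + 2 = 1 := rfl
  simp only [Fin.sum_univ_three, c1, c2, c3, c4, c5, c6] at hw ⊢
  set P := A 0 * B 1 with hPd
  set P1 := A 1 * B 2 with hP1d
  set P2 := A 2 * B 0 with hP2d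
  set W := P + P1 + P2 with hWd
  set X := I 0 2 + I 1 0 + I 2 1 with hXd
  have hP : 0 ≤ P := mul_nonneg (hA 0) (hB 1)
  have hP1 : 0 ≤ P1 := mul_nonneg (hA 1) (hB 2)
  have hP2 : 0 ≤ P2 := mul_nonneg (hA 2) (hB 0)
  have hX : 0 ≤ X := by have := hI0 0 2; have := hI0 1 0; have := hI0 2 1; linarith
  have hXQ : X / Q ≤ X / 2000 := div_le_div_of_nonneg_left hX (by norm_num) hQ
  have hXQ0 : 0 ≤ X / Q := div_nonneg hX hQ0.le
  have h3Q : 3 / Q ≤ 3 / 2000 := div_le_div_of_nonneg_left (by norm_num) (by norm_num) hQ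
  have h3Q0 : 0 ≤ 3 / Q := by positivity
  have hW0 : 0 ≤ W := by positivity
  have hw0 : 0 ≤ w := by rw [hw]; positivity
  have hw3 : 3 / Q * w ≤ 3 / 2000 * w := mul_le_mul_of_nonneg_right h3Q hw0
  have E0 : 0 ≤ B 1 * e 0 + A 0 * h 1 := add_nonneg (mul_nonneg (hB _) (he _)) (mul_nonneg (hA _) (hh _))
  have E1 : 0 ≤ B 2 * e 1 + A 1 * h 2 := add_nonneg (mul_nonneg (hB _) (he _)) (mul_nonneg (hA _) (hh _))
  have E2 : 0 ≤ B 0 * e 2 + A 2 * h 0 := add_nonneg (mul_nonneg (hB _) (he _)) (mul_nonneg (hA _) (hh _))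
  have I00 := hI0 0 0
  have I11 := hI0 1 1
  have I22 := hI0 2 2
  have I01 := hI0 0 1
  have I12 := hI0 1 2
  have I20 := hI0 2 0
  have m0 := hI 0 1
  have m1 := hI 1 2
  have m2 := hI 2 0
  rcases hW0.eq_or_lt with hWz | hWp
  · have z0 : P = 0 := by linarith
    have z1 : P1 = 0 := by linarith
    have z2 : P2 = 0 := by linarith
    rw [z0, z1, z2]
    simp only [zero_mul, zero_add]
    rw [← hWz, zero_add] at hw
    linarith
  · have hwp : 0 < w := by rw [hw]; linarith
    -- passing from w to W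
    have hlogw : log (w / W) ≤ w / W - 1 := log_le_sub_one_of_pos (by positivity)
    have hWl : W * log (w / W) ≤ X / Q := by
      calc W * log (w / W) ≤ W * (w / W - 1) := mul_le_mul_of_nonneg_left hlogw hW0
        _ = w - W := by field_simp
        _ = X / Q := by rw [hw]; ring
    have split : ∀ p : ℝ, 0 ≤ p → p * log (p / w) = p * log (p / W) - p * log (w / W) := by
      intro p hp
      rcases hp.eq_or_lt with h | h
      · rw [← h]; simp
      · rw [log_div h.ne' hwp.ne', log_div h.ne' hWp.ne', log_div hwp.ne' hWp.ne']; ring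
    rw [split P hP, split P1 hP1, split P2 hP2]
    have ent := ent_three (W := W) hP hP1 hP2 hWd
    have hsum : P * log (w / W) + P1 * log (w / W) + P2 * log (w / W) = W * log (w / W) := by rw [hWd]; ring
    -- the three pairs
    have p1 := pair_ineq (A := A 0) (A' := A 1) (B := B 1) (B' := B 2) (W := W) (hA 0) (hA 1) (hB 1) (hB 2)
      (he 0) (he 1) (hh 1) (hh 2) hδ (by linarith) (hI 0 2) (hI0 0 2) (hI 1 1) (hI0 1 1) (by linarith) (by linarith)
    have p2 := pair_ineq (A := A 1) (A' := A 2) (B := B 2) (B' := B 0) (W := W) (hA 1) (hA 2) (hB 2) (hB 0)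
      (he 1) (he 2) (hh 2) (hh 0) hδ (by linarith) (hI 1 0) (hI0 1 0) (hI 2 2) (hI0 2 2) (by linarith) (by linarith)
    have p3 := pair_ineq (A := A 2) (A' := A 0) (B := B 0) (B' := B 1) (W := W) (hA 2) (hA 0) (hB 0) (hB 1)
      (he 2) (he 0) (hh 0) (hh 1) hδ (by linarith) (hI 2 1) (hI0 2 1) (hI 0 0) (hI0 0 0) (by linarith) (by linarith)
    rw [← hPd, ← hP1d] at p1
    rw [← hP1d, ← hP2d] at p2
    rw [← hP2d, ← hPd] at p3
    set EE := (B 1 * e 0 + A 0 * h 1) + (B 2 * e 1 + A 1 * h 2) + (B 0 * e 2 + A 2 * h 0) with hEE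
    have hEE0 : 0 ≤ EE := by positivity
    have main : W * (1 - δ') - δ * EE ≤ I 0 1 + I 1 2 + I 2 0 := by
      rw [← hPd] at m0; rw [← hP1d] at m1; rw [← hP2d] at m2
      have : W * (1 - δ') - δ * EE = (P * (1 - δ') - δ * (B 1 * e 0 + A 0 * h 1)) + (P1 * (1 - δ') - δ * (B 2 * e 1 + A 1 * h 2))
        + (P2 * (1 - δ') - δ * (B 0 * e 2 + A 2 * h 0)) := by rw [hWd, hEE]; ring
      linarith
    have hWδ' : W * δ' ≤ W * (1 / 2000) := mul_le_mul_of_nonneg_left hδ' hW0
    have hWδ : δ * W ≤ (1 / 20000) * W := mul_le_mul_of_nonneg_right hδ1 hW0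
    have hEδ : δ * EE ≤ (1 / 20000) * EE := mul_le_mul_of_nonneg_right hδ1 hEE0
    have hwe : w = W + X / Q := hw
    have m' : W - W * δ' - δ * EE ≤ I 0 1 + I 1 2 + I 2 0 := by
      have : W * (1 - δ') = W - W * δ' := by ring
      linarith
    linarith

end Pool.Agent.X223.EXT
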