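import Mathlib
import Pool.Agent.X223.EXT.Core2

set_option autoImplicit false

namespace Pool.Agent.X223.EXT

open Finset Real

section
variable {R Ψ : Type} [Fintype R] [Fintype Ψ] [Nonempty R] [Nonempty Ψ]

lemma avg_avg_log {a : R → ℝ} {b : Ψ → ℝ} {w : ℝ} (ha : ∀ r, 0 ≤ a r) (hb : ∀ ψ, 0 ≤ b ψ) (hw : 0 < w) :
    (avg fun r => avg fun ψ => a r * b ψ * log (a r * b ψ / w))
      = avg a * avg b * log (avg a * avg b / w) + (avg b * Ent a + avg a * Ent b) := by
  have h1 : ∀ r ψ, a r * b ψ * log (a r * b ψ / w) = (b ψ * log (b ψ)) * a r + b ψ * (a r * log (a r) - a r * log w) := by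
    intro r ψ
    rcases (ha r).eq_or_lt with h | h
    · rw [← h]; simp
    rcases (hb ψ).eq_or_lt with h' | h'
    · rw [← h']; simp
    rw [log_div (mul_pos h h').ne' hw.ne', log_mul h.ne' h'.ne']; ring
  have h2 : (fun r => avg fun ψ => a r * b ψ * log (a r * b ψ / w)) =
      fun r => avg (fun ψ => b ψ * log (b ψ)) * a r + avg b * (a r * log (a r) - a r * log w) := by
    funext r
    simp only [h1]
    rw [avg_add, avg_mul_const, avg_mul_const]
  rw [h2, avg_add, avg_const_mul, avg_const_mul, avg_sub, avg_mul_const]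
  unfold Ent
  have hA : 0 ≤ avg a := avg_nonneg ha
  have hB : 0 ≤ avg b := avg_nonneg hb
  rcases hA.eq_or_lt with h | h
  · rw [← h]; simp
  rcases hB.eq_or_lt with h' | h'
  · rw [← h']; simp [mul_comm]
  rw [log_div (mul_pos h h').ne' hw.ne', log_mul h.ne' h'.ne']; ring

theorem core {G : (R → ℝ) → Ψ → ℝ} {η L Q w : ℝ} (hG : Mixing G η) (hη : 0 ≤ η) (hL : 1 < L)
    (hL1 : 1 / log L ≤ 1 / 20000) (hL2 : 2 / log L + η * L ≤ 1 / 2000) (hQ : 2000 ≤ Q)
    (a : Fin 3 → R → ℝ) (b : Fin 3 → Ψ → ℝ) (ha : ∀ i r, 0 ≤ a i r) (hb : ∀ i ψ, 0 ≤ b i ψ) (hwp : 0 < w)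
    (hw : w = (∑ i, avg (a i) * avg (b (i + 1))) + (∑ i, avg fun ψ => b (i + 2) ψ * G (a i) ψ) / Q) :
    99.8 * w + 3 / Q * w ≤ (∑ i, avg fun r => avg fun ψ => a i r * b (i + 1) ψ * log (a i r * b (i + 1) ψ / w))
      + 99.9 * (∑ i, ((avg fun ψ => b (i + 1) ψ * G (a i) ψ) + avg fun ψ => b (i + 2) ψ * G (a i) ψ))
      + 0.2 * (∑ i, avg fun ψ => b i ψ * G (a i) ψ) := by
  have hl : 0 < log L := log_pos hL
  have key := core_num (fun i => avg (a i)) (fun i => avg (b i)) (fun i => Ent (a i)) (fun i => Ent (b i))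
    (fun i j => avg fun ψ => b j ψ * G (a i) ψ) (δ := 1 / log L) (δ' := 2 / log L + η * L) (Q := Q) (w := w)
    (fun i => avg_nonneg (ha i)) (fun i => avg_nonneg (hb i)) (fun i => ent_nonneg (ha i)) (fun i => ent_nonneg (hb i))
    (fun i j => avg_nonneg fun ψ => mul_nonneg (hb j ψ) (hG.nonneg _ (ha i) ψ))
    (fun i j => mix_lower hG hη (ha i) (hb j) hL) (by positivity) hL1 hL2 (by positivity) hQ hw
  have e : ∀ i, (avg fun r => avg fun ψ => a i r * b (i + 1) ψ * log (a i r * b (i + 1) ψ / w)) =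
      avg (a i) * avg (b (i + 1)) * log (avg (a i) * avg (b (i + 1)) / w) + (avg (b (i + 1)) * Ent (a i) + avg (a i) * Ent (b (i + 1))) :=
    fun i => avg_avg_log (ha i) (hb (i + 1)) hwp
  simp only [e]
  exact key

end

/-! Functions from `Fin n` to `Fin q`. -/

section Fun
variable {n q : ℕ}

lemma avg_pi [NeZero q] (w : Fin n → Fin q → ℝ) :
    avg (fun f : Fin n → Fin q => ∏ i, w i (f i)) = ∏ i, avg (w i) := by
  unfold avg
  rw [prod_div_distrib, Finset.prod_univ_sum, Fintype.piFinset_univ]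
  congr 1
  simp [Fintype.card_pi]

lemma avg_pi_one [NeZero q] (c : Fin n) (g : Fin q → ℝ) :
    avg (fun f : Fin n → Fin q => g (f c)) = avg g := by
  have h := avg_pi (n := n) (q := q) (fun i => if i = c then g else fun _ => 1)
  have e1 : (fun f : Fin n → Fin q => ∏ i, (if i = c then g else fun _ => (1 : ℝ)) (f i)) = fun f => g (f c) := by
    funext f
    rw [Fintype.prod_eq_single c]
    · simp
    · intro i hi; simp [hi]
  have e2 : ∏ i, avg (if i = c then g else fun _ => (1 : ℝ)) = avg g := by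
    rw [Fintype.prod_eq_single c]
    · simp
    · intro i hi; simp only [hi, if_false]; exact avg_const 1
  rw [e1, e2] at h
  exact h

lemma avg_pi_two [NeZero q] {c c' : Fin n} (hc : c ≠ c') (g h : Fin q → ℝ) :
    avg (fun f : Fin n → Fin q => g (f c) * h (f c')) = avg g * avg h := by
  have H := avg_pi (n := n) (q := q) (fun i => if i = c then g else if i = c' then h else fun _ => 1)
  have e1 : (fun f : Fin n → Fin q => ∏ i, (if i = c then g else if i = c' then h else fun _ => (1 : ℝ)) (f i))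
      = fun f => g (f c) * h (f c') := by
    funext f
    rw [Fintype.prod_eq_mul c c' hc]
    · simp [hc.symm]
    · intro i hi; simp [hi.1, hi.2]
  have e2 : ∏ i, avg (if i = c then g else if i = c' then h else fun _ => (1 : ℝ)) = avg g * avg h := by
    rw [Fintype.prod_eq_mul c c' hc]
    · simp [hc.symm]
    · intro i hi; simp only [hi.1, hi.2, if_false]; exact avg_const 1
  rw [e1, e2] at H
  exact H

lemma avg_prod_snd {A B : Type} [Fintype A] [Fintype B] [Nonempty A] [Nonempty B] (g : B → ℝ) :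
    avg (fun p : A × B => g p.2) = avg g := by
  unfold avg
  rw [Fintype.sum_prod_type, Fintype.card_prod]
  simp only [sum_const, card_univ, nsmul_eq_mul]
  push_cast
  rw [mul_div_mul_left _ _ (card_pos' (R := A)).ne']

lemma avg_finprod (a : Fin n × Fin q → ℝ) [NeZero n] [NeZero q] :
    avg a = (∑ c, avg fun d => a (c, d)) / n := by
  unfold avg
  rw [Fintype.sum_prod_type, ← sum_div, Fintype.card_prod]
  simp only [Fintype.card_fin]
  push_cast
  rw [div_div, mul_comm]

/-- the average of a function along the graph of the second component -/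
noncomputable def gr {A : Type} (a : Fin n × Fin q → ℝ) (ψ : A × (Fin n → Fin q)) : ℝ := (∑ c, a (c, ψ.2 c)) / n

lemma avg_sum {A ι : Type} [Fintype A] [Fintype ι] (g : ι → A → ℝ) : avg (fun f => ∑ c, g c f) = ∑ c, avg (g c) := by
  unfold avg; rw [sum_comm, sum_div]

theorem mixing_gr {A : Type} [Fintype A] [Nonempty A] [NeZero n] [NeZero q] :
    Mixing (gr (A := A) (n := n) (q := q)) (1 / √n) where
  nonneg a ha ψ := by unfold gr; exact div_nonneg (sum_nonneg fun c _ => ha _) (by positivity)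
  mono a a' h ψ := by unfold gr; exact div_le_div_of_nonneg_right (sum_le_sum fun c _ => h _) (by positivity)
  mean a := by
    refine (avg_prod_snd (A := A) (fun f : Fin n → Fin q => (∑ c, a (c, f c)) / n)).trans ?_
    have e2 : (fun f : Fin n → Fin q => (∑ c, a (c, f c)) / n) = fun f => (∑ c, a (c, f c)) * (n : ℝ)⁻¹ := by
      funext f; rw [div_eq_mul_inv]
    rw [e2, avg_mul_const, avg_sum, avg_finprod, div_eq_mul_inv]
    congr 1
    refine sum_congr rfl fun c _ => ?_
    exact avg_pi_one c fun d => a (c, d)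
  sq a ha := by
    have hn : (0 : ℝ) < n := by exact_mod_cast Nat.pos_of_ne_zero (NeZero.ne n)
    refine (le_of_eq (avg_prod_snd (A := A) (fun f : Fin n → Fin q => ((∑ c, a (c, f c)) / n) ^ 2))).trans ?_
    have e2 : (fun f : Fin n → Fin q => ((∑ c, a (c, f c)) / n) ^ 2)
        = fun f => (∑ c, ∑ c', a (c, f c) * a (c', f c')) * ((n : ℝ) ^ 2)⁻¹ := by
      funext f
      rw [div_pow, div_eq_mul_inv, sq, sum_mul_sum]
    rw [e2, avg_mul_const, avg_sum]
    simp only [avg_sum]
    set m : Fin n → ℝ := fun c => avg fun d => a (c, d) with hm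
    set S : Fin n → ℝ := fun c => avg fun d => a (c, d) ^ 2 with hS
    have hm0 : ∀ c, 0 ≤ m c := fun c => avg_nonneg fun d => ha _
    have hS0 : ∀ c, 0 ≤ S c := fun c => avg_nonneg fun d => sq_nonneg _
    have h1 : ∀ c c', avg (fun f : Fin n → Fin q => a (c, f c) * a (c', f c')) ≤ m c * m c' + (if c = c' then S c else 0) := by
      intro c c'
      by_cases hcc : c = c'
      · subst hcc
        simp only [if_true]
        have : (fun f : Fin n → Fin q => a (c, f c) * a (c, f c)) = fun f => (fun d => a (c, d) ^ 2) (f c) := by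
          funext f; simp [sq]
        rw [this, avg_pi_one c fun d => a (c, d) ^ 2]
        have := mul_nonneg (hm0 c) (hm0 c)
        linarith
      · simp only [hcc, if_false, add_zero]
        exact (avg_pi_two hcc (fun d => a (c, d)) (fun d => a (c', d))).le
    have h2 : (∑ c, ∑ c', avg (fun f : Fin n → Fin q => a (c, f c) * a (c', f c'))) ≤ (∑ c, m c) ^ 2 + ∑ c, S c := by
      calc (∑ c, ∑ c', avg (fun f : Fin n → Fin q => a (c, f c) * a (c', f c')))
          ≤ ∑ c, ∑ c', (m c * m c' + (if c = c' then S c else 0)) := sum_le_sum fun c _ => sum_le_sum fun c' _ => h1 c c'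
        _ = (∑ c, m c) ^ 2 + ∑ c, S c := by
            simp only [sum_add_distrib, sum_ite_eq, mem_univ, if_true]
            rw [sq, sum_mul_sum]
    rw [avg_finprod, avg_finprod]
    have h3 : ((∑ c, m c) / n) ^ 2 + (1 / √n) ^ 2 * ((∑ c, S c) / n) = ((∑ c, m c) ^ 2 + ∑ c, S c) * ((n : ℝ) ^ 2)⁻¹ := by
      rw [div_pow (1 : ℝ), sq_sqrt hn.le]
      field_simp
    rw [h3]
    exact mul_le_mul_of_nonneg_right h2 (by positivity)

end Fun

end Pool.Agent.X223.EXT
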