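import Mathlib
import Pool.Agent.X223.EXT.Core3

set_option autoImplicit false

namespace Pool.Agent.X223.EXT

open Finset Real

/-- inputs of Alice: a hint and two points -/
abbrev X0 (n q : ℕ) : Type := Fin 3 × (Fin n × Fin q) × (Fin n × Fin q)

/-- inputs of Bob: a hint and two functions -/
abbrev Y0 (n q : ℕ) : Type := Fin 3 × (Fin n → Fin q) × (Fin n → Fin q)

variable {n q : ℕ}

/-- the point `s` lies on the graph of `f` -/
abbrev On (f : Fin n → Fin q) (s : Fin n × Fin q) : Prop := f s.1 = s.2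

/-- the function: one of the two points lies on the corresponding graph -/
def F0 (x : X0 n q) (y : Y0 n q) : Bool := decide (On y.2.1 x.2.1 ∨ On y.2.2 x.2.2)

/-- the distribution on the inputs -/
noncomputable def mu0 (z : X0 n q × Y0 n q) : ℝ :=
  ((q : ℝ) / (6 * ((n : ℝ) * q) ^ 2 * ((q : ℝ) ^ n) ^ 2)) *
    ((if z.2.1 = z.1.1 + 1 ∧ On z.2.2.1 z.1.2.1 then 1 else 0) + (if z.2.1 = z.1.1 + 2 ∧ On z.2.2.2 z.1.2.2 then 1 else 0))

/-- weights of the pairs of hints -/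
noncomputable def piw (u v : Fin 3) : ℝ := if v = u then 1 / 3000 else 0.1665

/-- the reference distribution: both points lie on the graphs -/
noncomputable def rho0 (z : X0 n q × Y0 n q) : ℝ :=
  ((q : ℝ) ^ 2 / (((n : ℝ) * q) ^ 2 * ((q : ℝ) ^ n) ^ 2)) *
    (piw z.1.1 z.2.1 * (if On z.2.2.1 z.1.2.1 ∧ On z.2.2.2 z.1.2.2 then 1 else 0))

lemma mu0_nonneg (z : X0 n q × Y0 n q) : 0 ≤ mu0 z := by
  unfold mu0
  apply mul_nonneg (by positivity)
  split_ifs <;> norm_num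

lemma piw_nonneg (u v : Fin 3) : 0 ≤ piw u v := by unfold piw; split_ifs <;> norm_num

lemma rho0_nonneg (z : X0 n q × Y0 n q) : 0 ≤ rho0 z := by
  unfold rho0
  apply mul_nonneg (by positivity) (mul_nonneg (piw_nonneg _ _) _)
  split_ifs <;> norm_num

/-- the functions whose graph contains `s` -/
abbrev FT (s : Fin n × Fin q) : Type := {f : Fin n → Fin q // On f s}

instance (s : Fin n × Fin q) : Nonempty (FT s) := ⟨⟨fun _ => s.2, rfl⟩⟩

/-- the pairs of functions, the first of which passes through `s` -/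
abbrev Psi (s : Fin n × Fin q) : Type := FT s × (Fin n → Fin q)

instance (s : Fin n × Fin q) : Nonempty (Psi s) := ⟨(⟨fun _ => s.2, rfl⟩, fun _ => s.2)⟩

lemma card_FT [NeZero q] (s : Fin n × Fin q) : (Fintype.card (FT s) : ℝ) * q = (q : ℝ) ^ n := by
  have h := avg_pi_one (n := n) (q := q) s.1 (fun d => if d = s.2 then (1 : ℝ) else 0)
  unfold avg at h
  rw [sum_ite_eq' univ s.2, if_pos (mem_univ _)] at h
  have h2 : (∑ f : Fin n → Fin q, if f s.1 = s.2 then (1 : ℝ) else 0) = Fintype.card (FT s) := by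
    rw [sum_boole, Fintype.card_subtype]
  rw [h2] at h
  simp only [Fintype.card_fun, Fintype.card_fin] at h
  push_cast at h
  have hq : (q : ℝ) ≠ 0 := by exact_mod_cast NeZero.ne q
  field_simp at h
  linarith

lemma card_Psi [NeZero q] (s : Fin n × Fin q) : (Fintype.card (Psi s) : ℝ) * q = ((q : ℝ) ^ n) ^ 2 := by
  rw [Fintype.card_prod]
  simp only [Fintype.card_fun, Fintype.card_fin]
  push_cast
  have := card_FT s
  calc (Fintype.card (FT s) : ℝ) * (q : ℝ) ^ n * q = (Fintype.card (FT s) * q) * (q : ℝ) ^ n := by ring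
    _ = _ := by rw [this]; ring

lemma sumX (s : Fin n × Fin q) (h : X0 n q → ℝ) (h0 : ∀ x, x.2.1 ≠ s → h x = 0) :
    ∑ x, h x = ∑ u, ∑ r, h (u, s, r) := by
  rw [Fintype.sum_prod_type]
  refine sum_congr rfl fun u _ => ?_
  rw [Fintype.sum_prod_type]
  rw [Fintype.sum_eq_single s]
  intro s' hs'
  exact sum_eq_zero fun r _ => h0 (u, s', r) hs'

lemma sumY (s : Fin n × Fin q) (h : Y0 n q → ℝ) (h0 : ∀ y, ¬ On y.2.1 s → h y = 0) :
    ∑ y, h y = ∑ v, ∑ ψ : Psi s, h (v, ψ.1.1, ψ.2) := by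
  rw [Fintype.sum_prod_type]
  refine sum_congr rfl fun v _ => ?_
  rw [Fintype.sum_prod_type, Fintype.sum_prod_type]
  have e := Finset.sum_subtype (F := inferInstanceAs (Fintype (FT s))) (univ.filter fun f : Fin n → Fin q => On f s)
    (p := fun f => On f s) (by simp) (fun f => ∑ g, h (v, f, g))
  have e' : ∑ x : FT s, ∑ y : Fin n → Fin q, h (v, x.1, y) = ∑ a : {f : Fin n → Fin q // On f s}, (fun f => ∑ g, h (v, f, g)) a := rfl
  rw [e', ← e]
  symm
  apply Finset.sum_subset (filter_subset _ _)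
  intro f _ hf
  simp only [mem_filter, mem_univ, true_and] at hf
  exact sum_eq_zero fun g _ => h0 (v, f, g) hf

section
variable [NeZero n] [NeZero q]

lemma sum_rest (s : Fin n × Fin q) (g : X0 n q → Y0 n q → ℝ) (u v : Fin 3) :
    ∑ r, ∑ ψ : Psi s, g (u, s, r) (v, ψ.1.1, ψ.2) =
      ((n : ℝ) * q) * Fintype.card (Psi s) * avg fun r => avg fun ψ : Psi s => g (u, s, r) (v, ψ.1.1, ψ.2) := by
  unfold avg
  simp only [Fintype.card_prod (Fin n) (Fin q), Fintype.card_fin]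
  push_cast
  rw [← sum_div]
  have h1 : (Fintype.card (Psi s) : ℝ) ≠ 0 := card_pos'.ne'
  have hn : (n : ℝ) ≠ 0 := by exact_mod_cast NeZero.ne n
  have hq : (q : ℝ) ≠ 0 := by exact_mod_cast NeZero.ne q
  field_simp

lemma sum_graph (s : Fin n × Fin q) (g : X0 n q → Y0 n q → ℝ) (u v : Fin 3) :
    ∑ r, ∑ ψ : Psi s, (if On ψ.2 r then 1 else 0) * g (u, s, r) (v, ψ.1.1, ψ.2) =
      (n : ℝ) * Fintype.card (Psi s) * avg fun ψ : Psi s => (∑ c, g (u, s, (c, ψ.2 c)) (v, ψ.1.1, ψ.2)) / n := by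
  unfold avg
  have h1 : (Fintype.card (Psi s) : ℝ) ≠ 0 := card_pos'.ne'
  have hn : (n : ℝ) ≠ 0 := by exact_mod_cast NeZero.ne n
  rw [← sum_div]
  field_simp
  rw [sum_comm]
  refine sum_congr rfl fun ψ _ => ?_
  rw [Fintype.sum_prod_type]
  refine sum_congr rfl fun c _ => ?_
  simp only [ite_mul, one_mul, zero_mul]
  rw [sum_ite_eq univ (ψ.2 c)]
  simp

lemma mu_sum (s : Fin n × Fin q) (g : X0 n q → Y0 n q → ℝ) (h1 : ∀ x y, x.2.1 ≠ s → g x y = 0)
    (h2 : ∀ x y, ¬ On y.2.1 s → g x y = 0) :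
    ∑ z : X0 n q × Y0 n q, mu0 z * g z.1 z.2 =
      (1 / (6 * ((n : ℝ) * q))) * ((∑ u, avg fun r => avg fun ψ : Psi s => g (u, s, r) (u + 1, ψ.1.1, ψ.2))
        + (∑ u, avg fun ψ : Psi s => (∑ c, g (u, s, (c, ψ.2 c)) (u + 2, ψ.1.1, ψ.2)) / n) / q) := by
  rw [Fintype.sum_prod_type]
  rw [sumX s _ (fun x hx => sum_eq_zero fun y _ => by rw [h1 x y hx, mul_zero])]
  have step : ∀ u : Fin 3, ∀ r, (∑ y, mu0 ((u, s, r), y) * g (u, s, r) y) =
      ((q : ℝ) / (6 * ((n : ℝ) * q) ^ 2 * ((q : ℝ) ^ n) ^ 2)) *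
        ((∑ ψ : Psi s, g (u, s, r) (u + 1, ψ.1.1, ψ.2)) +
          ∑ ψ : Psi s, (if On ψ.2 r then 1 else 0) * g (u, s, r) (u + 2, ψ.1.1, ψ.2)) := by
    intro u r
    rw [sumY s _ (fun y hy => by rw [h2 _ y hy, mul_zero])]
    have : ∀ v, ∀ ψ : Psi s, mu0 (((u, s, r), (v, ψ.1.1, ψ.2)) : X0 n q × Y0 n q) * g (u, s, r) (v, ψ.1.1, ψ.2) =
        ((q : ℝ) / (6 * ((n : ℝ) * q) ^ 2 * ((q : ℝ) ^ n) ^ 2)) *
          ((if v = u + 1 then g (u, s, r) (v, ψ.1.1, ψ.2) else 0) +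
            (if v = u + 2 then (if On ψ.2 r then 1 else 0) * g (u, s, r) (v, ψ.1.1, ψ.2) else 0)) := by
      intro v ψ
      have hs : On ψ.1.1 s := ψ.1.2
      unfold mu0
      simp only [hs, and_true]
      split_ifs <;> simp_all
    simp only [this]
    simp only [← mul_sum, sum_add_distrib]
    congr 1
    congr 1
    · rw [sum_comm]
      refine sum_congr rfl fun ψ _ => ?_
      rw [sum_ite_eq' univ (u + 1)]; simp
    · rw [sum_comm]
      refine sum_congr rfl fun ψ _ => ?_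
      rw [sum_ite_eq' univ (u + 2)]; simp
  simp only [step]
  simp only [← mul_sum, sum_add_distrib]
  simp only [sum_rest s g, sum_graph s g]
  simp only [← mul_sum]
  have hc := card_Psi s
  have hn : (n : ℝ) ≠ 0 := by exact_mod_cast NeZero.ne n
  have hq : (q : ℝ) ≠ 0 := by exact_mod_cast NeZero.ne q
  have hcne : (Fintype.card (Psi s) : ℝ) ≠ 0 := card_pos'.ne'
  rw [← hc]
  field_simp

lemma rho_sum (s : Fin n × Fin q) (g : X0 n q → Y0 n q → ℝ) (h1 : ∀ x y, x.2.1 ≠ s → g x y = 0)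
    (h2 : ∀ x y, ¬ On y.2.1 s → g x y = 0) :
    ∑ z : X0 n q × Y0 n q, rho0 z * g z.1 z.2 =
      (1 / ((n : ℝ) * q)) * (∑ u, ∑ v, piw u v * avg fun ψ : Psi s => (∑ c, g (u, s, (c, ψ.2 c)) (v, ψ.1.1, ψ.2)) / n) := by
  rw [Fintype.sum_prod_type]
  rw [sumX s _ (fun x hx => sum_eq_zero fun y _ => by rw [h1 x y hx, mul_zero])]
  have step : ∀ u : Fin 3, ∀ r, (∑ y, rho0 ((u, s, r), y) * g (u, s, r) y) =
      ((q : ℝ) ^ 2 / (((n : ℝ) * q) ^ 2 * ((q : ℝ) ^ n) ^ 2)) *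
        (∑ v, piw u v * ∑ ψ : Psi s, (if On ψ.2 r then 1 else 0) * g (u, s, r) (v, ψ.1.1, ψ.2)) := by
    intro u r
    rw [sumY s _ (fun y hy => by rw [h2 _ y hy, mul_zero])]
    have : ∀ v, ∀ ψ : Psi s, rho0 (((u, s, r), (v, ψ.1.1, ψ.2)) : X0 n q × Y0 n q) * g (u, s, r) (v, ψ.1.1, ψ.2) =
        ((q : ℝ) ^ 2 / (((n : ℝ) * q) ^ 2 * ((q : ℝ) ^ n) ^ 2)) *
          (piw u v * ((if On ψ.2 r then 1 else 0) * g (u, s, r) (v, ψ.1.1, ψ.2))) := by
      intro v ψ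
      have hs : On ψ.1.1 s := ψ.1.2
      by_cases hr : On ψ.2 r
      · simp only [rho0]; rw [if_pos ⟨hs, hr⟩, if_pos hr]; ring
      · simp only [rho0]; rw [if_neg (fun h => hr h.2), if_neg hr]; ring
    simp only [this]
    simp only [← mul_sum]
  simp only [step]
  simp only [← mul_sum]
  have e : ∀ u, (∑ r, ∑ v, piw u v * ∑ ψ : Psi s, (if On ψ.2 r then 1 else 0) * g (u, s, r) (v, ψ.1.1, ψ.2)) =
      (n : ℝ) * Fintype.card (Psi s) * ∑ v, piw u v * avg fun ψ : Psi s => (∑ c, g (u, s, (c, ψ.2 c)) (v, ψ.1.1, ψ.2)) / n := by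
    intro u
    rw [sum_comm, mul_sum]
    refine sum_congr rfl fun v _ => ?_
    rw [← mul_sum, sum_graph s g u v]; ring
  simp only [e, ← mul_sum]
  have hc := card_Psi s
  have hn : (n : ℝ) ≠ 0 := by exact_mod_cast NeZero.ne n
  have hq : (q : ℝ) ≠ 0 := by exact_mod_cast NeZero.ne q
  have hcne : (Fintype.card (Psi s) : ℝ) ≠ 0 := card_pos'.ne'
  rw [← hc]
  field_simp

end

end Pool.Agent.X223.EXT
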