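import Mathlib
import Pool.Agent.X223.EXT.Leaf

set_option autoImplicit false

namespace Pool.Agent.X223.EXT

open Finset Real

variable {n q : ℕ}

/-- the inequality for a weighted rectangle -/
def LI (α : X0 n q → ℝ) (β : Y0 n q → ℝ) : Prop :=
  (log (6 * ((n : ℝ) * q)) + 99.8) * ∑ z : X0 n q × Y0 n q, mu0 z * (α z.1 * β z.2) ≤
    (∑ z : X0 n q × Y0 n q, mu0 z * (α z.1 * β z.2 * log (α z.1 * β z.2 / ∑ w : X0 n q × Y0 n q, mu0 w * (α w.1 * β w.2))))
      + 100 * ∑ z : X0 n q × Y0 n q, rho0 z * (α z.1 * β z.2)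

theorem leaf_P0 [NeZero n] [NeZero q] {L : ℝ} (hL : 1 < L) (hL1 : 1 / log L ≤ 1 / 20000)
    (hL2 : 2 / log L + 1 / √(n : ℝ) * L ≤ 1 / 2000) (hQ : 2000 ≤ (q : ℝ))
    (s : Fin n × Fin q) (α : X0 n q → ℝ) (β : Y0 n q → ℝ) (ha : ∀ x, 0 ≤ α x) (hb : ∀ y, 0 ≤ β y)
    (hα : ∀ x, x.2.1 ≠ s → α x = 0) (hβ : ∀ y, ¬ On y.2.1 s → β y = 0) : LI α β := by
  unfold LI
  set m := ∑ z : X0 n q × Y0 n q, mu0 z * (α z.1 * β z.2) with hm
  have hn : (0 : ℝ) < n := by exact_mod_cast Nat.pos_of_ne_zero (NeZero.ne n)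
  have hq : (0 : ℝ) < q := by exact_mod_cast Nat.pos_of_ne_zero (NeZero.ne q)
  have hρ0 : 0 ≤ ∑ z : X0 n q × Y0 n q, rho0 z * (α z.1 * β z.2) :=
    sum_nonneg fun z _ => mul_nonneg (rho0_nonneg z) (mul_nonneg (ha _) (hb _))
  have hm0 : 0 ≤ m := sum_nonneg fun z _ => mul_nonneg (mu0_nonneg z) (mul_nonneg (ha _) (hb _))
  rcases hm0.eq_or_lt with hz | hmp
  · have hz' : ∀ z : X0 n q × Y0 n q, mu0 z * (α z.1 * β z.2) = 0 := fun z =>
      (sum_eq_zero_iff_of_nonneg fun z _ => mul_nonneg (mu0_nonneg z) (mul_nonneg (ha _) (hb _))).1 hz.symm z (mem_univ z)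
    have e : (∑ z : X0 n q × Y0 n q, mu0 z * (α z.1 * β z.2 * log (α z.1 * β z.2 / m))) = 0 := by
      refine sum_eq_zero fun z _ => ?_
      rw [← mul_assoc, hz' z, zero_mul]
    rw [e, ← hz]
    linarith
  -- notation
  set a : Fin 3 → Fin n × Fin q → ℝ := fun i r => α (i, s, r) with had
  set b : Fin 3 → Psi s → ℝ := fun j ψ => β (j, ψ.1.1, ψ.2) with hbd
  have ha0 : ∀ i r, 0 ≤ a i r := fun i r => ha _
  have hb0 : ∀ i ψ, 0 ≤ b i ψ := fun i ψ => hb _
  set I : Fin 3 → Fin 3 → ℝ := fun i j => avg fun ψ : Psi s => b j ψ * gr (A := FT s) (a i) ψ with hI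
  set w : ℝ := (∑ i, avg (a i) * avg (b (i + 1))) + (∑ i, I i (i + 2)) / q with hw
  set M : ℝ := (n : ℝ) * q with hM
  have hMp : 0 < M := mul_pos hn hq
  -- the mass
  have hgr : ∀ i j (ψ : Psi s), (∑ c, α (i, s, (c, ψ.2 c)) * β (j, ψ.1.1, ψ.2)) / (n : ℝ) = b j ψ * gr (A := FT s) (a i) ψ := by
    intro i j ψ
    unfold gr
    rw [← sum_mul]
    simp only [had, hbd]; ring
  have hmw : m = 1 / (6 * M) * w := by
    have h := mu_sum s (fun x y => α x * β y) (fun x y hx => by simp [hα x hx]) (fun x y hy => by simp [hβ y hy])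
    rw [hm]
    refine h.trans ?_
    congr 1
    rw [hw]
    congr 1
    · refine sum_congr rfl fun u _ => ?_
      have : (fun r => avg fun ψ : Psi s => α (u, s, r) * β (u + 1, ψ.1.1, ψ.2)) = fun r => a u r * avg (b (u + 1)) := by
        funext r; exact avg_const_mul (α (u, s, r)) (b (u + 1))
      rw [this, avg_mul_const]
    · congr 1
      refine sum_congr rfl fun u _ => ?_
      simp only [hI]
      congr 1
      funext ψ
      exact hgr u (u + 2) ψ
  have hwp : 0 < w := by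
    have : 0 < 1 / (6 * M) * w := by rw [← hmw]; exact hmp
    exact pos_of_mul_pos_right this (by positivity)
  -- the reference mass
  have hρ : ∑ z : X0 n q × Y0 n q, rho0 z * (α z.1 * β z.2) = 1 / M * ∑ u, ∑ v, piw u v * I u v := by
    have h := rho_sum s (fun x y => α x * β y) (fun x y hx => by simp [hα x hx]) (fun x y hy => by simp [hβ y hy])
    refine h.trans ?_
    congr 1
    refine sum_congr rfl fun u _ => sum_congr rfl fun v _ => ?_
    congr 1
    simp only [hI]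
    congr 1
    funext ψ
    exact hgr u v ψ
  have hρ' : ∑ u, ∑ v, piw u v * I u v = 0.1665 * (∑ i, (I i (i + 1) + I i (i + 2))) + (1 / 3000) * ∑ i, I i i := by
    have c1 : (0 : Fin 3) + 1 = 1 := rfl
    have c2 : (1 : Fin 3) + 1 = 2 := rfl
    have c3 : (2 : Fin 3) + 1 = 0 := rfl
    have c4 : (0 : Fin 3) + 2 = 2 := rfl
    have c5 : (1 : Fin 3) + 2 = 0 := rfl
    have c6 : (2 : Fin 3) + 2 = 1 := rfl
    have d1 : ¬ ((0 : Fin 3) = 1) := by decide
    have d2 : ¬ ((0 : Fin 3) = 2) := by decide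
    have d3 : ¬ ((1 : Fin 3) = 0) := by decide
    have d4 : ¬ ((1 : Fin 3) = 2) := by decide
    have d5 : ¬ ((2 : Fin 3) = 0) := by decide
    have d6 : ¬ ((2 : Fin 3) = 1) := by decide
    simp only [Fin.sum_univ_three, c1, c2, c3, c4, c5, c6, piw, d1, d2, d3, d4, d5, d6, if_true, if_false]
    ring
  -- the entropy term
  set S1 : ℝ := ∑ i, avg fun r => avg fun ψ => a i r * b (i + 1) ψ * log (a i r * b (i + 1) ψ / w) with hS1
  have hlog : ∀ x y, α x * β y * log (α x * β y / m) = log (6 * M) * (α x * β y) + α x * β y * log (α x * β y / w) := by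
    intro x y
    have h0 : 0 ≤ α x * β y := mul_nonneg (ha x) (hb y)
    rw [mul_log_div h0 hmp, mul_log_div h0 hwp, hmw, log_mul (by positivity) hwp.ne', one_div, log_inv]
    ring
  have hent : 1 / (6 * M) * (log (6 * M) * w + S1 - 3 / q * w) ≤
      ∑ z : X0 n q × Y0 n q, mu0 z * (α z.1 * β z.2 * log (α z.1 * β z.2 / m)) := by
    have h := mu_sum s (fun x y => α x * β y * log (α x * β y / m)) (fun x y hx => by simp [hα x hx])
      (fun x y hy => by simp [hβ y hy])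
    refine le_of_le_of_eq ?_ h.symm
    apply mul_le_mul_of_nonneg_left _ (by positivity)
    simp only [hlog]
    have e1 : (∑ u, avg fun r => avg fun ψ : Psi s => (log (6 * M) * (α (u, s, r) * β (u + 1, ψ.1.1, ψ.2)) +
        α (u, s, r) * β (u + 1, ψ.1.1, ψ.2) * log (α (u, s, r) * β (u + 1, ψ.1.1, ψ.2) / w)))
        = log (6 * M) * (∑ i, avg (a i) * avg (b (i + 1))) + S1 := by
      rw [hS1, mul_sum, ← sum_add_distrib]
      refine sum_congr rfl fun u _ => ?_
      have : (fun r => avg fun ψ : Psi s => (log (6 * M) * (α (u, s, r) * β (u + 1, ψ.1.1, ψ.2)) +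
        α (u, s, r) * β (u + 1, ψ.1.1, ψ.2) * log (α (u, s, r) * β (u + 1, ψ.1.1, ψ.2) / w)))
          = fun r => log (6 * M) * (a u r * avg (b (u + 1))) + avg fun ψ => a u r * b (u + 1) ψ * log (a u r * b (u + 1) ψ / w) := by
        funext r
        rw [avg_add, avg_const_mul]
        congr 2
        exact avg_const_mul (α (u, s, r)) (b (u + 1))
      rw [this, avg_add, avg_const_mul, avg_mul_const]
    have e2 : ∀ u, log (6 * M) * I u (u + 2) - w ≤ avg fun ψ : Psi s => (∑ c, (log (6 * M) * (α (u, s, (c, ψ.2 c)) * β (u + 2, ψ.1.1, ψ.2)) +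
        α (u, s, (c, ψ.2 c)) * β (u + 2, ψ.1.1, ψ.2) * log (α (u, s, (c, ψ.2 c)) * β (u + 2, ψ.1.1, ψ.2) / w))) / n := by
      intro u
      have e3 : log (6 * M) * I u (u + 2) - w = avg fun ψ : Psi s => (log (6 * M) * (b (u + 2) ψ * gr (A := FT s) (a u) ψ) - w) := by
        rw [avg_sub, avg_const_mul, avg_const]
      rw [e3]
      refine avg_mono fun ψ => ?_
      rw [← hgr u (u + 2) ψ]
      have h5 : ∑ c : Fin n, (log (6 * M) * (α (u, s, (c, ψ.2 c)) * β (u + 2, ψ.1.1, ψ.2)) - w) ≤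
          ∑ c, (log (6 * M) * (α (u, s, (c, ψ.2 c)) * β (u + 2, ψ.1.1, ψ.2)) +
        α (u, s, (c, ψ.2 c)) * β (u + 2, ψ.1.1, ψ.2) * log (α (u, s, (c, ψ.2 c)) * β (u + 2, ψ.1.1, ψ.2) / w)) := by
        refine sum_le_sum fun c _ => ?_
        have h6 : 0 ≤ α (u, s, (c, ψ.2 c)) * β (u + 2, ψ.1.1, ψ.2) := mul_nonneg (ha _) (hb _)
        have h7 := mul_log_ge h6 hwp
        linarith
      have h8 : (∑ c : Fin n, (log (6 * M) * (α (u, s, (c, ψ.2 c)) * β (u + 2, ψ.1.1, ψ.2)) - w)) / (n : ℝ)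
          = log (6 * M) * ((∑ c, α (u, s, (c, ψ.2 c)) * β (u + 2, ψ.1.1, ψ.2)) / n) - w := by
        rw [sum_sub_distrib, ← mul_sum, sum_const, card_univ, Fintype.card_fin, nsmul_eq_mul, sub_div,
          mul_div_assoc, mul_div_cancel_left₀ _ hn.ne']
      rw [← h8]
      exact div_le_div_of_nonneg_right h5 hn.le
    rw [e1]
    have e4 : (log (6 * M) * (∑ i, I i (i + 2)) - 3 * w) / q ≤ (∑ u, avg fun ψ : Psi s => (∑ c, (log (6 * M) * (α (u, s, (c, ψ.2 c)) * β (u + 2, ψ.1.1, ψ.2)) +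
        α (u, s, (c, ψ.2 c)) * β (u + 2, ψ.1.1, ψ.2) * log (α (u, s, (c, ψ.2 c)) * β (u + 2, ψ.1.1, ψ.2) / w))) / n) / q := by
      apply div_le_div_of_nonneg_right _ hq.le
      have := sum_le_sum fun u (_ : u ∈ (univ : Finset (Fin 3))) => e2 u
      refine le_trans (le_of_eq ?_) this
      rw [sum_sub_distrib, ← mul_sum]
      simp
    have e5 : log (6 * M) * w + S1 - 3 / q * w = log (6 * M) * (∑ i, avg (a i) * avg (b (i + 1))) + S1 +
        (log (6 * M) * (∑ i, I i (i + 2)) - 3 * w) / q := by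
      rw [hw]; field_simp; ring
    rw [e5]
    linarith
  -- conclusion
  have key := core (mixing_gr (A := FT s) (n := n) (q := q)) (by positivity) hL hL1 hL2 hQ a b ha0 hb0 hwp hw
  rw [← hS1] at key
  rw [hρ, hρ']
  refine le_trans ?_ (add_le_add hent le_rfl)
  rw [hmw]
  have e6 : 1 / (6 * M) * (log (6 * M) * w + S1 - 3 / ↑q * w) + 100 * (1 / M * (0.1665 * (∑ i, (I i (i + 1) + I i (i + 2))) + (1 / 3000) * ∑ i, I i i))
      = 1 / (6 * M) * (log (6 * M) * w + S1 - 3 / ↑q * w + 99.9 * (∑ i, (I i (i + 1) + I i (i + 2))) + 0.2 * ∑ i, I i i) := by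
    field_simp; ring
  rw [e6]
  have e7 : (log (6 * M) + 99.8) * (1 / (6 * M) * w) = 1 / (6 * M) * (log (6 * M) * w + 99.8 * w) := by ring
  rw [e7]
  apply mul_le_mul_of_nonneg_left _ (by positivity)
  linarith

end Pool.Agent.X223.EXT
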