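import Mathlib
import Pool.Agent.X223.EXT.Leaf2

set_option autoImplicit false

namespace Pool.Agent.X223.EXT

open Finset Real

variable {n q : ℕ}

/-! The symmetry which exchanges the two points. -/

/-- the symmetry on the inputs of Alice -/
def tX : X0 n q ≃ X0 n q where
  toFun x := (-x.1, x.2.2, x.2.1)
  invFun x := (-x.1, x.2.2, x.2.1)
  left_inv x := by simp
  right_inv x := by simp

/-- the symmetry on the inputs of Bob -/
def tY : Y0 n q ≃ Y0 n q where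
  toFun x := (-x.1, x.2.2, x.2.1)
  invFun x := (-x.1, x.2.2, x.2.1)
  left_inv x := by simp
  right_inv x := by simp

lemma fin3_a : ∀ u v : Fin 3, (-v = -u + 1) ↔ (v = u + 2) := by decide
lemma fin3_b : ∀ u v : Fin 3, (-v = -u + 2) ↔ (v = u + 1) := by decide
lemma fin3_c : ∀ u v : Fin 3, (-v = -u) ↔ (v = u) := by decide

lemma ite_congr' {a b : Prop} [Decidable a] [Decidable b] (h : a ↔ b) (x y : ℝ) :
    (if a then x else y) = if b then x else y := by
  by_cases hp : a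
  · rw [if_pos hp, if_pos (h.1 hp)]
  · rw [if_neg hp, if_neg (fun hq => hp (h.2 hq))]

lemma mu0_swap (z : X0 n q × Y0 n q) : mu0 (tX z.1, tY z.2) = mu0 z := by
  unfold mu0
  refine congrArg _ ?_
  refine (add_comm _ _).trans (congrArg₂ (· + ·) ?_ ?_)
  · exact ite_congr' (and_congr_left' (fin3_b z.1.1 z.2.1)) _ _
  · exact ite_congr' (and_congr_left' (fin3_a z.1.1 z.2.1)) _ _

lemma rho0_swap (z : X0 n q × Y0 n q) : rho0 (tX z.1, tY z.2) = rho0 z := by
  unfold rho0 piw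
  refine congrArg _ (congrArg₂ (· * ·) ?_ ?_)
  · exact ite_congr' (fin3_c z.1.1 z.2.1) _ _
  · exact ite_congr' (and_comm (a := On z.2.2.2 z.1.2.2) (b := On z.2.2.1 z.1.2.1)) _ _

lemma sum_swap (w : X0 n q × Y0 n q → ℝ) (hw : ∀ z, w (tX z.1, tY z.2) = w z) (g : X0 n q → Y0 n q → ℝ) :
    ∑ z, w z * g (tX z.1) (tY z.2) = ∑ z, w z * g z.1 z.2 := by
  rw [← Equiv.sum_comp (Equiv.prodCongr tX tY) (fun z => w z * g z.1 z.2)]
  refine sum_congr rfl fun z _ => ?_
  show w z * g (tX z.1) (tY z.2) = w (tX z.1, tY z.2) * g (tX z.1) (tY z.2)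
  rw [hw]

lemma LI_swap (α : X0 n q → ℝ) (β : Y0 n q → ℝ) (h : LI (fun x => α (tX x)) (fun y => β (tY y))) : LI α β := by
  unfold LI at h ⊢
  have e1 := sum_swap (n := n) (q := q) mu0 mu0_swap (fun x y => α x * β y)
  have e2 := sum_swap (n := n) (q := q) rho0 rho0_swap (fun x y => α x * β y)
  rw [e1, e2] at h
  have e3 := sum_swap (n := n) (q := q) mu0 mu0_swap (fun x y => α x * β y * log (α x * β y / ∑ w : X0 n q × Y0 n q, mu0 w * (α w.1 * β w.2)))
  rw [e3] at h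
  exact h

section
variable [NeZero n] [NeZero q]

theorem leaf_P1 {L : ℝ} (hL : 1 < L) (hL1 : 1 / log L ≤ 1 / 20000)
    (hL2 : 2 / log L + 1 / √(n : ℝ) * L ≤ 1 / 2000) (hQ : 2000 ≤ (q : ℝ))
    (s : Fin n × Fin q) (α : X0 n q → ℝ) (β : Y0 n q → ℝ) (ha : ∀ x, 0 ≤ α x) (hb : ∀ y, 0 ≤ β y)
    (hα : ∀ x, x.2.2 ≠ s → α x = 0) (hβ : ∀ y, ¬ On y.2.2 s → β y = 0) : LI α β := by
  apply LI_swap
  exact leaf_P0 hL hL1 hL2 hQ s _ _ (fun x => ha _) (fun y => hb _) (fun x hx => hα _ hx) (fun y hy => hβ _ hy)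

/-- small rectangles are expensive -/
theorem LI_small (α : X0 n q → ℝ) (β : Y0 n q → ℝ) (ha : ∀ x, 0 ≤ α x) (hb : ∀ y, 0 ≤ β y) (A : Finset (X0 n q))
    (B : Finset (Y0 n q)) (hA : ∀ x, x ∉ A → α x = 0) (hB : ∀ y, y ∉ B → β y = 0)
    (hm : ∑ x ∈ A, ∑ y ∈ B, mu0 (x, y) ≤ (exp (-99.8) / 6) / ((n : ℝ) * q)) : LI α β := by
  unfold LI
  set m := ∑ z : X0 n q × Y0 n q, mu0 z * (α z.1 * β z.2) with hmd
  have hn : (0 : ℝ) < n := by exact_mod_cast Nat.pos_of_ne_zero (NeZero.ne n)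
  have hq : (0 : ℝ) < q := by exact_mod_cast Nat.pos_of_ne_zero (NeZero.ne q)
  have hρ0 : 0 ≤ ∑ z : X0 n q × Y0 n q, rho0 z * (α z.1 * β z.2) :=
    sum_nonneg fun z _ => mul_nonneg (rho0_nonneg z) (mul_nonneg (ha _) (hb _))
  have hm0 : 0 ≤ m := sum_nonneg fun z _ => mul_nonneg (mu0_nonneg z) (mul_nonneg (ha _) (hb _))
  rcases hm0.eq_or_lt with hz | hmp
  · have hz' : ∀ z : X0 n q × Y0 n q, mu0 z * (α z.1 * β z.2) = 0 := fun z =>
      (sum_eq_zero_iff_of_nonneg fun z _ => mul_nonneg (mu0_nonneg z) (mul_nonneg (ha _) (hb _))).1 hz.symm z (mem_univ z)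
    have e : (∑ z : X0 n q × Y0 n q, mu0 z * (α z.1 * β z.2 * log (α z.1 * β z.2 / m))) = 0 := by
      refine sum_eq_zero fun z _ => ?_
      rw [← mul_assoc, hz' z, zero_mul]
    rw [e, ← hz]
    linarith
  set mR := ∑ x ∈ A, ∑ y ∈ B, mu0 (x, y) with hmR
  have conv : ∀ g : X0 n q → Y0 n q → ℝ, (∀ x y, α x = 0 → g x y = 0) → (∀ x y, β y = 0 → g x y = 0) →
      ∑ z : X0 n q × Y0 n q, mu0 z * g z.1 z.2 = ∑ x ∈ A, ∑ y ∈ B, mu0 (x, y) * g x y := by
    intro g h1 h2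
    rw [Fintype.sum_prod_type]
    symm
    rw [← Finset.sum_subset (subset_univ A) (fun x _ hx => sum_eq_zero fun y _ => by rw [h1 x y (hA x hx), mul_zero])]
    refine sum_congr rfl fun x _ => ?_
    exact Finset.sum_subset (subset_univ B) (fun y _ hy => by rw [h2 x y (hB y hy), mul_zero])
  have hmAB : m = ∑ x ∈ A, ∑ y ∈ B, mu0 (x, y) * (α x * β y) :=
    conv (fun x y => α x * β y) (fun x y h => by simp [h]) (fun x y h => by simp [h])
  have hR0 : 0 ≤ mR := sum_nonneg fun x _ => sum_nonneg fun y _ => mu0_nonneg _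
  have hRp : 0 < mR := by
    rcases hR0.eq_or_lt with h | h
    · exfalso
      have h1 : ∀ x ∈ A, ∀ y ∈ B, mu0 (x, y) = 0 := by
        intro x hx y hy
        have h2 := (sum_eq_zero_iff_of_nonneg (fun x _ => sum_nonneg fun y _ => mu0_nonneg (x, y))).1 h.symm x hx
        exact (sum_eq_zero_iff_of_nonneg (fun y _ => mu0_nonneg (x, y))).1 h2 y hy
      have : m = 0 := by
        rw [hmAB]
        exact sum_eq_zero fun x hx => sum_eq_zero fun y hy => by rw [h1 x hx y hy, zero_mul]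
      linarith
    · exact h
  have hl : m * log (1 / mR) ≤ ∑ z : X0 n q × Y0 n q, mu0 z * (α z.1 * β z.2 * log (α z.1 * β z.2 / m)) := by
    rw [conv (fun x y => α x * β y * log (α x * β y / m)) (fun x y h => by simp [h]) (fun x y h => by simp [h])]
    have h3 : ∀ x y, α x * β y - m / mR + α x * β y * log (1 / mR) ≤ α x * β y * log (α x * β y / m) := by
      intro x y
      have h0 : 0 ≤ α x * β y := mul_nonneg (ha x) (hb y)
      have h4 := mul_log_ge h0 (div_pos hmp hRp)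
      have h5 : α x * β y * log (α x * β y / m) = α x * β y * log (α x * β y / (m / mR)) + α x * β y * log (1 / mR) := by
        rw [mul_log_div h0 hmp, mul_log_div h0 (div_pos hmp hRp), log_div hmp.ne' hRp.ne', one_div, log_inv]; ring
      rw [h5]; linarith
    have h6 : ∑ x ∈ A, ∑ y ∈ B, mu0 (x, y) * (α x * β y - m / mR + α x * β y * log (1 / mR)) = m * log (1 / mR) := by
      have : ∀ x y, mu0 (x, y) * (α x * β y - m / mR + α x * β y * log (1 / mR)) =
          mu0 (x, y) * (α x * β y) * (1 + log (1 / mR)) - mu0 (x, y) * (m / mR) := by intro x y; ring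
      simp only [this, sum_sub_distrib, ← sum_mul]
      rw [← hmAB, ← hmR]
      field_simp
      ring
    rw [← h6]
    exact sum_le_sum fun x _ => sum_le_sum fun y _ => mul_le_mul_of_nonneg_left (h3 x y) (mu0_nonneg _)
  have hlog : log (6 * ((n : ℝ) * q)) + 99.8 ≤ log (1 / mR) := by
    have h7 : log (exp (-99.8) / 6 / ((n : ℝ) * q)) = - (log (6 * ((n : ℝ) * q)) + 99.8) := by
      have hMq : (0 : ℝ) < n * q := mul_pos hn hq
      rw [log_div (div_pos (exp_pos _) (by norm_num)).ne' hMq.ne', log_div (exp_pos _).ne' (by norm_num), log_exp,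
        log_mul (by norm_num) hMq.ne']
      ring
    have h8 : log mR ≤ log (exp (-99.8) / 6 / ((n : ℝ) * q)) := log_le_log hRp hm
    rw [one_div, log_inv]
    linarith
  have h9 : (log (6 * ((n : ℝ) * q)) + 99.8) * m ≤ m * log (1 / mR) := by
    rw [mul_comm]; exact mul_le_mul_of_nonneg_left hlog hm0
  linarith

/-! Counting. -/

lemma sum_on (s : Fin n × Fin q) : ∑ f : Fin n → Fin q, (if On f s then (1 : ℝ) else 0) = (q : ℝ) ^ n / q := by
  have h := avg_pi_one (n := n) (q := q) s.1 (fun d => if d = s.2 then (1 : ℝ) else 0)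
  unfold avg at h
  rw [sum_ite_eq' univ s.2, if_pos (mem_univ _)] at h
  simp only [Fintype.card_fun, Fintype.card_fin] at h
  push_cast at h
  have hq : (q : ℝ) ≠ 0 := by exact_mod_cast NeZero.ne q
  have hqn : (q : ℝ) ^ n ≠ 0 := pow_ne_zero _ hq
  rw [div_eq_iff hqn] at h
  rw [h]; ring

lemma sum_on_two {s s' : Fin n × Fin q} (hs : s ≠ s') :
    ∑ f : Fin n → Fin q, (if On f s ∧ On f s' then (1 : ℝ) else 0) ≤ (q : ℝ) ^ n / q ^ 2 := by
  by_cases hc : s.1 = s'.1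
  · have : ∀ f : Fin n → Fin q, ¬ (On f s ∧ On f s') := by
      rintro f ⟨h1, h2⟩
      apply hs
      refine Prod.ext hc ?_
      rw [← h1, ← h2, hc]
    simp only [this, if_false, sum_const_zero]
    positivity
  · have h := avg_pi_two (n := n) (q := q) hc (fun d => if d = s.2 then (1 : ℝ) else 0) (fun d => if d = s'.2 then (1 : ℝ) else 0)
    unfold avg at h
    rw [sum_ite_eq' univ s.2, if_pos (mem_univ _), sum_ite_eq' univ s'.2, if_pos (mem_univ _)] at h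
    simp only [Fintype.card_fun, Fintype.card_fin] at h
    push_cast at h
    have hq : (q : ℝ) ≠ 0 := by exact_mod_cast NeZero.ne q
    have hqn : (q : ℝ) ^ n ≠ 0 := pow_ne_zero _ hq
    rw [div_eq_iff hqn] at h
    have e : ∀ f : Fin n → Fin q, (if On f s ∧ On f s' then (1 : ℝ) else 0) =
        (if f s.1 = s.2 then (1 : ℝ) else 0) * (if f s'.1 = s'.2 then (1 : ℝ) else 0) := by
      intro f
      by_cases h1 : f s.1 = s.2 <;> by_cases h2 : f s'.1 = s'.2 <;> simp [On, h1, h2]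
    simp only [e]
    rw [h]
    apply le_of_eq
    field_simp

lemma card_fun' : (Fintype.card (Fin n → Fin q) : ℝ) = (q : ℝ) ^ n := by simp

/-- the mass of a set of inputs of Bob, for a given input of Alice -/
lemma mass_eq (x : X0 n q) (P : Y0 n q → Prop) [DecidablePred P] :
    ∑ y, (if P y then mu0 (x, y) else 0) = ((q : ℝ) / (6 * ((n : ℝ) * q) ^ 2 * ((q : ℝ) ^ n) ^ 2)) *
      ((∑ f0, ∑ f1, if P (x.1 + 1, f0, f1) ∧ On f0 x.2.1 then (1 : ℝ) else 0) +
        (∑ f0, ∑ f1, if P (x.1 + 2, f0, f1) ∧ On f1 x.2.2 then (1 : ℝ) else 0)) := by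
  have e : ∀ y : Y0 n q, (if P y then mu0 (x, y) else 0) = ((q : ℝ) / (6 * ((n : ℝ) * q) ^ 2 * ((q : ℝ) ^ n) ^ 2)) *
      ((if y.1 = x.1 + 1 then (if P y ∧ On y.2.1 x.2.1 then (1 : ℝ) else 0) else 0) +
        (if y.1 = x.1 + 2 then (if P y ∧ On y.2.2 x.2.2 then (1 : ℝ) else 0) else 0)) := by
    intro y
    unfold mu0
    by_cases hP : P y
    · simp only [hP, if_true, true_and]
      congr 2
      · by_cases h1 : y.1 = x.1 + 1 <;> simp [h1]
      · by_cases h1 : y.1 = x.1 + 2 <;> simp [h1]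
    · simp [hP]
  simp only [e]
  rw [← mul_sum, sum_add_distrib]
  congr 2
  · rw [Fintype.sum_prod_type]
    have : ∀ v : Fin 3, (∑ y : (Fin n → Fin q) × (Fin n → Fin q), if v = x.1 + 1 then (if P (v, y) ∧ On y.1 x.2.1 then (1 : ℝ) else 0) else 0) =
        if v = x.1 + 1 then (∑ y : (Fin n → Fin q) × (Fin n → Fin q), (if P (v, y) ∧ On y.1 x.2.1 then (1 : ℝ) else 0)) else 0 := by
      intro v; split_ifs <;> simp
    simp only [this]
    rw [sum_ite_eq' univ (x.1 + 1), if_pos (mem_univ _), Fintype.sum_prod_type]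
  · rw [Fintype.sum_prod_type]
    have : ∀ v : Fin 3, (∑ y : (Fin n → Fin q) × (Fin n → Fin q), if v = x.1 + 2 then (if P (v, y) ∧ On y.2 x.2.2 then (1 : ℝ) else 0) else 0) =
        if v = x.1 + 2 then (∑ y : (Fin n → Fin q) × (Fin n → Fin q), (if P (v, y) ∧ On y.2 x.2.2 then (1 : ℝ) else 0)) else 0 := by
      intro v; split_ifs <;> simp
    simp only [this]
    rw [sum_ite_eq' univ (x.1 + 2), if_pos (mem_univ _), Fintype.sum_prod_type]

lemma mass_univ (x : X0 n q) : ∑ y, mu0 (x, y) = 1 / (3 * ((n : ℝ) * q) ^ 2) := by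
  have h := mass_eq x (fun _ => True)
  simp only [if_true, true_and] at h
  rw [h]
  have e1 : ∀ f0 : Fin n → Fin q, (∑ _f1 : Fin n → Fin q, if On f0 x.2.1 then (1 : ℝ) else 0) =
      (if On f0 x.2.1 then (1 : ℝ) else 0) * (q : ℝ) ^ n := by
    intro f0; rw [sum_const, card_univ, nsmul_eq_mul, card_fun', mul_comm]
  simp only [e1]
  rw [← sum_mul, sum_on]
  rw [sum_const, card_univ, nsmul_eq_mul, card_fun', sum_on]
  have hn : (n : ℝ) ≠ 0 := by exact_mod_cast NeZero.ne n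
  have hq : (q : ℝ) ≠ 0 := by exact_mod_cast NeZero.ne q
  field_simp
  ring

lemma mass_le_univ (x : X0 n q) (B : Finset (Y0 n q)) : ∑ y ∈ B, mu0 (x, y) ≤ 1 / (3 * ((n : ℝ) * q) ^ 2) := by
  rw [← mass_univ x]
  exact sum_le_sum_of_subset_of_nonneg (subset_univ B) fun y _ _ => mu0_nonneg _

/-- If two further inputs of Alice differ in the first, respectively the second point, then few inputs of Bob are left. -/
lemma mass_two {x x' x'' : X0 n q} (h1 : x'.2.1 ≠ x.2.1) (h2 : x''.2.2 ≠ x.2.2) (B : Finset (Y0 n q))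
    (hB1 : ∀ y ∈ B, F0 x' y = true) (hB2 : ∀ y ∈ B, F0 x'' y = true) :
    ∑ y ∈ B, mu0 (x, y) ≤ 2 / (3 * ((n : ℝ) * q) ^ 2 * q) := by
  have hn : (0 : ℝ) < n := by exact_mod_cast Nat.pos_of_ne_zero (NeZero.ne n)
  have hq : (0 : ℝ) < q := by exact_mod_cast Nat.pos_of_ne_zero (NeZero.ne q)
  have e : ∑ y ∈ B, mu0 (x, y) = ∑ y, (if y ∈ B then mu0 (x, y) else 0) := by
    rw [← sum_filter]; congr 1; ext y; simp
  rw [e, mass_eq x (fun y => y ∈ B)]
  -- first half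
  have b1 : (∑ f0, ∑ f1, if ((x.1 + 1, f0, f1) : Y0 n q) ∈ B ∧ On f0 x.2.1 then (1 : ℝ) else 0) ≤ 2 * ((q : ℝ) ^ n) ^ 2 / q ^ 2 := by
    have p : ∀ f0 f1 : Fin n → Fin q, (if ((x.1 + 1, f0, f1) : Y0 n q) ∈ B ∧ On f0 x.2.1 then (1 : ℝ) else 0) ≤
        (if On f0 x.2.1 ∧ On f0 x'.2.1 then (1 : ℝ) else 0) + (if On f0 x.2.1 then (1 : ℝ) else 0) * (if On f1 x'.2.2 then (1 : ℝ) else 0) := by
      intro f0 f1
      by_cases hc : ((x.1 + 1, f0, f1) : Y0 n q) ∈ B ∧ On f0 x.2.1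
      · have hF := hB1 _ hc.1
        simp only [F0, decide_eq_true_eq] at hF
        rw [if_pos hc]
        rcases hF with hF | hF
        · rw [if_pos ⟨hc.2, hF⟩]
          have : (0 : ℝ) ≤ (if On f0 x.2.1 then (1 : ℝ) else 0) * (if On f1 x'.2.2 then (1 : ℝ) else 0) := by positivity
          linarith
        · rw [if_pos hc.2, if_pos hF]
          have : (0 : ℝ) ≤ (if On f0 x.2.1 ∧ On f0 x'.2.1 then (1 : ℝ) else 0) := by positivity
          linarith
      · rw [if_neg hc]; positivity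
    calc _ ≤ ∑ f0 : Fin n → Fin q, ∑ f1 : Fin n → Fin q, ((if On f0 x.2.1 ∧ On f0 x'.2.1 then (1 : ℝ) else 0) +
          (if On f0 x.2.1 then (1 : ℝ) else 0) * (if On f1 x'.2.2 then (1 : ℝ) else 0)) :=
          sum_le_sum fun f0 _ => sum_le_sum fun f1 _ => p f0 f1
      _ = (∑ f0 : Fin n → Fin q, (if On f0 x.2.1 ∧ On f0 x'.2.1 then (1 : ℝ) else 0)) * (q : ℝ) ^ n +
          (∑ f0 : Fin n → Fin q, if On f0 x.2.1 then (1 : ℝ) else 0) * (∑ f1 : Fin n → Fin q, if On f1 x'.2.2 then (1 : ℝ) else 0) := by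
          simp only [sum_add_distrib, ← mul_sum, sum_const, card_univ, nsmul_eq_mul, card_fun', ← sum_mul]
          ring
      _ ≤ ((q : ℝ) ^ n / q ^ 2) * (q : ℝ) ^ n + ((q : ℝ) ^ n / q) * ((q : ℝ) ^ n / q) := by
          rw [sum_on, sum_on]
          exact add_le_add (mul_le_mul_of_nonneg_right (sum_on_two h1.symm) (by positivity)) le_rfl
      _ = 2 * ((q : ℝ) ^ n) ^ 2 / q ^ 2 := by field_simp; ring
  have b2 : (∑ f0, ∑ f1, if ((x.1 + 2, f0, f1) : Y0 n q) ∈ B ∧ On f1 x.2.2 then (1 : ℝ) else 0) ≤ 2 * ((q : ℝ) ^ n) ^ 2 / q ^ 2 := by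
    have p : ∀ f0 f1 : Fin n → Fin q, (if ((x.1 + 2, f0, f1) : Y0 n q) ∈ B ∧ On f1 x.2.2 then (1 : ℝ) else 0) ≤
        (if On f1 x.2.2 ∧ On f1 x''.2.2 then (1 : ℝ) else 0) + (if On f0 x''.2.1 then (1 : ℝ) else 0) * (if On f1 x.2.2 then (1 : ℝ) else 0) := by
      intro f0 f1
      by_cases hc : ((x.1 + 2, f0, f1) : Y0 n q) ∈ B ∧ On f1 x.2.2
      · have hF := hB2 _ hc.1
        simp only [F0, decide_eq_true_eq] at hF
        rw [if_pos hc]
        rcases hF with hF | hF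
        · rw [if_pos hc.2, if_pos hF]
          have : (0 : ℝ) ≤ (if On f1 x.2.2 ∧ On f1 x''.2.2 then (1 : ℝ) else 0) := by positivity
          linarith
        · rw [if_pos ⟨hc.2, hF⟩]
          have : (0 : ℝ) ≤ (if On f0 x''.2.1 then (1 : ℝ) else 0) * (if On f1 x.2.2 then (1 : ℝ) else 0) := by positivity
          linarith
      · rw [if_neg hc]; positivity
    calc _ ≤ ∑ f0 : Fin n → Fin q, ∑ f1 : Fin n → Fin q, ((if On f1 x.2.2 ∧ On f1 x''.2.2 then (1 : ℝ) else 0) +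
          (if On f0 x''.2.1 then (1 : ℝ) else 0) * (if On f1 x.2.2 then (1 : ℝ) else 0)) :=
          sum_le_sum fun f0 _ => sum_le_sum fun f1 _ => p f0 f1
      _ = (∑ f1 : Fin n → Fin q, (if On f1 x.2.2 ∧ On f1 x''.2.2 then (1 : ℝ) else 0)) * (q : ℝ) ^ n +
          (∑ f0 : Fin n → Fin q, if On f0 x''.2.1 then (1 : ℝ) else 0) * (∑ f1 : Fin n → Fin q, if On f1 x.2.2 then (1 : ℝ) else 0) := by
          simp only [sum_add_distrib, ← mul_sum, sum_const, card_univ, nsmul_eq_mul, card_fun', ← sum_mul]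
          ring
      _ ≤ ((q : ℝ) ^ n / q ^ 2) * (q : ℝ) ^ n + ((q : ℝ) ^ n / q) * ((q : ℝ) ^ n / q) := by
          rw [sum_on, sum_on]
          exact add_le_add (mul_le_mul_of_nonneg_right (sum_on_two h2.symm) (by positivity)) le_rfl
      _ = 2 * ((q : ℝ) ^ n) ^ 2 / q ^ 2 := by field_simp; ring
  calc _ ≤ ((q : ℝ) / (6 * ((n : ℝ) * q) ^ 2 * ((q : ℝ) ^ n) ^ 2)) * (2 * ((q : ℝ) ^ n) ^ 2 / q ^ 2 + 2 * ((q : ℝ) ^ n) ^ 2 / q ^ 2) :=
        mul_le_mul_of_nonneg_left (add_le_add b1 b2) (by positivity)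
    _ = 2 / (3 * ((n : ℝ) * q) ^ 2 * q) := by field_simp; ring

end

end Pool.Agent.X223.EXT
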