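import Mathlib
import Pool.Agent.X223.EXT.Struct

set_option autoImplicit false

namespace Pool.Agent.X223.EXT

open Finset Real

variable {n q : ℕ}

section
variable [NeZero n] [NeZero q]

lemma card_F0 (y : Y0 n q) (A : Finset (X0 n q)) (hA : ∀ x ∈ A, F0 x y = true) :
    (A.card : ℝ) ≤ 6 * (n * (n * q)) := by
  classical
  have h1 : A ⊆ (A.filter fun x => On y.2.1 x.2.1) ∪ (A.filter fun x => On y.2.2 x.2.2) := by
    intro x hx
    have := hA x hx
    simp only [F0, decide_eq_true_eq] at this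
    rcases this with h | h
    · exact mem_union_left _ (mem_filter.2 ⟨hx, h⟩)
    · exact mem_union_right _ (mem_filter.2 ⟨hx, h⟩)
  have h2 : (A.filter fun x => On y.2.1 x.2.1).card ≤ (univ : Finset (Fin 3 × Fin n × (Fin n × Fin q))).card := by
    apply card_le_card_of_injOn (fun x => (x.1, x.2.1.1, x.2.2)) (fun x _ => mem_univ _)
    rintro ⟨u, ⟨c, d⟩, r⟩ hx ⟨u', ⟨c', d'⟩, r'⟩ hx' he
    simp only [coe_filter, Set.mem_ofPred_eq, On] at hx hx'
    simp only [Prod.mk.injEq] at he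
    obtain ⟨e1, e2, e3⟩ := he
    subst e1 e2 e3
    rw [← hx.2, ← hx'.2]
  have h3 : (A.filter fun x => On y.2.2 x.2.2).card ≤ (univ : Finset (Fin 3 × Fin n × (Fin n × Fin q))).card := by
    apply card_le_card_of_injOn (fun x => (x.1, x.2.2.1, x.2.1)) (fun x _ => mem_univ _)
    rintro ⟨u, r, ⟨c, d⟩⟩ hx ⟨u', r', ⟨c', d'⟩⟩ hx' he
    simp only [coe_filter, Set.mem_ofPred_eq, On] at hx hx'
    simp only [Prod.mk.injEq] at he
    obtain ⟨e1, e2, e3⟩ := he
    subst e1 e2 e3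
    rw [← hx.2, ← hx'.2]
  have h4 : A.card ≤ 3 * (n * (n * q)) + 3 * (n * (n * q)) := by
    refine (card_le_card h1).trans ((card_union_le _ _).trans (add_le_add ?_ ?_))
    · simpa using h2
    · simpa using h3
  have h5 : (A.card : ℝ) ≤ ((3 * (n * (n * q)) + 3 * (n * (n * q)) : ℕ) : ℝ) := by exact_mod_cast h4
  push_cast at h5
  linarith

lemma card_row (y : Y0 n q) (s : Fin n × Fin q) (A : Finset (X0 n q)) (hA : ∀ x ∈ A, x.2.1 = s)
    (hB : ∀ x ∈ A, On y.2.2 x.2.2) : (A.card : ℝ) ≤ 3 * n := by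
  have h2 : A.card ≤ (univ : Finset (Fin 3 × Fin n)).card := by
    apply card_le_card_of_injOn (fun x => (x.1, x.2.2.1)) (fun x _ => mem_univ _)
    intro x hx x' hx' he
    have a1 := hA x hx
    have a2 := hA x' hx'
    have b1 := hB x hx
    have b2 := hB x' hx'
    obtain ⟨u, r, ⟨c, d⟩⟩ := x
    obtain ⟨u', r', ⟨c', d'⟩⟩ := x'
    simp only [On] at a1 a2 b1 b2
    simp only [Prod.mk.injEq] at he
    obtain ⟨e1, e2⟩ := he
    subst e1 e2
    rw [← b1, ← b2, a1, a2]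
  have h3 : A.card ≤ 3 * n := by simpa using h2
  exact_mod_cast h3

lemma card_col (y : Y0 n q) (s : Fin n × Fin q) (A : Finset (X0 n q)) (hA : ∀ x ∈ A, x.2.2 = s)
    (hB : ∀ x ∈ A, On y.2.1 x.2.1) : (A.card : ℝ) ≤ 3 * n := by
  have h2 : A.card ≤ (univ : Finset (Fin 3 × Fin n)).card := by
    apply card_le_card_of_injOn (fun x => (x.1, x.2.1.1)) (fun x _ => mem_univ _)
    intro x hx x' hx' he
    have a1 := hA x hx
    have a2 := hA x' hx'
    have b1 := hB x hx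
    have b2 := hB x' hx'
    obtain ⟨u, ⟨c, d⟩, r⟩ := x
    obtain ⟨u', ⟨c', d'⟩, r'⟩ := x'
    simp only [On] at a1 a2 b1 b2
    simp only [Prod.mk.injEq] at he
    obtain ⟨e1, e2⟩ := he
    subst e1 e2
    rw [← b1, ← b2, a1, a2]
  have h3 : A.card ≤ 3 * n := by simpa using h2
  exact_mod_cast h3

/-- the inequality for every weighted rectangle on which the function is `true` -/
theorem LI_all {L : ℝ} (hL : 1 < L) (hL1 : 1 / log L ≤ 1 / 20000)
    (hL2 : 2 / log L + 1 / √(n : ℝ) * L ≤ 1 / 2000) (hQ : 2000 ≤ (q : ℝ))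
    (hc : 4 * (n : ℝ) ≤ (exp (-99.8) / 6) * q)
    (α : X0 n q → ℝ) (β : Y0 n q → ℝ) (ha : ∀ x, 0 ≤ α x) (hb : ∀ y, 0 ≤ β y)
    (hmono : ∀ x y, α x ≠ 0 → β y ≠ 0 → F0 x y = true) : LI α β := by
  classical
  have hn : (0 : ℝ) < n := by exact_mod_cast Nat.pos_of_ne_zero (NeZero.ne n)
  have hn1 : (1 : ℝ) ≤ n := by exact_mod_cast Nat.one_le_iff_ne_zero.2 (NeZero.ne n)
  have hq : (0 : ℝ) < q := by exact_mod_cast Nat.pos_of_ne_zero (NeZero.ne q)
  have hM : (0 : ℝ) < (n : ℝ) * q := mul_pos hn hq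
  set A : Finset (X0 n q) := univ.filter fun x => α x ≠ 0 with hAd
  set B : Finset (Y0 n q) := univ.filter fun y => β y ≠ 0 with hBd
  have hA : ∀ x, x ∉ A → α x = 0 := fun x hx => by by_contra h; exact hx (mem_filter.2 ⟨mem_univ _, h⟩)
  have hB : ∀ y, y ∉ B → β y = 0 := fun x hx => by by_contra h; exact hx (mem_filter.2 ⟨mem_univ _, h⟩)
  have hAB : ∀ x ∈ A, ∀ y ∈ B, F0 x y = true := fun x hx y hy => hmono x y (mem_filter.1 hx).2 (mem_filter.1 hy).2
  by_cases hsm : ∑ x ∈ A, ∑ y ∈ B, mu0 (x, y) ≤ (exp (-99.8) / 6) / ((n : ℝ) * q)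
  · exact LI_small α β ha hb A B hA hB hsm
  push Not at hsm
  set c0 : ℝ := exp (-99.8) / 6 with hc0
  have hc0p : 0 < c0 := by positivity
  -- B is not empty
  have hBne : B.Nonempty := by
    by_contra h
    rw [not_nonempty_iff_eq_empty] at h
    rw [h] at hsm
    simp only [sum_empty, sum_const_zero] at hsm
    exact absurd hsm (not_lt.2 (div_nonneg hc0p.le hM.le))
  obtain ⟨y0, hy0⟩ := hBne
  have hcard1 : (A.card : ℝ) ≤ 6 * (n * (n * q)) := card_F0 y0 A fun x hx => hAB x hx y0 hy0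
  have hbig : 3 * (n : ℝ) < A.card := by
    have h1 : ∑ x ∈ A, ∑ y ∈ B, mu0 (x, y) ≤ A.card * (1 / (3 * ((n : ℝ) * q) ^ 2)) := by
      rw [← nsmul_eq_mul, ← sum_const]
      exact sum_le_sum fun x _ => mass_le_univ x B
    have h2 : c0 / ((n : ℝ) * q) < A.card * (1 / (3 * ((n : ℝ) * q) ^ 2)) := lt_of_lt_of_le hsm h1
    have h3 : 3 * (n * (c0 * q)) < (A.card : ℝ) := by
      have h4 : c0 / ((n : ℝ) * q) * (3 * ((n : ℝ) * q) ^ 2) < A.card * (1 / (3 * ((n : ℝ) * q) ^ 2)) * (3 * ((n : ℝ) * q) ^ 2) :=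
        mul_lt_mul_of_pos_right h2 (by positivity)
      have h5 : c0 / ((n : ℝ) * q) * (3 * ((n : ℝ) * q) ^ 2) = 3 * (n * (c0 * q)) := by field_simp
      have h6 : (A.card : ℝ) * (1 / (3 * ((n : ℝ) * q) ^ 2)) * (3 * ((n : ℝ) * q) ^ 2) = A.card := by field_simp
      rw [h5, h6] at h4
      exact h4
    nlinarith
  have hline : (∃ s, ∀ x ∈ A, x.2.1 = s) ∨ (∃ s, ∀ x ∈ A, x.2.2 = s) := by
    by_contra hcon
    push Not at hcon
    obtain ⟨g1, g2⟩ := hcon
    have h1 : ∀ x ∈ A, ∑ y ∈ B, mu0 (x, y) ≤ 2 / (3 * ((n : ℝ) * q) ^ 2 * q) := by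
      intro x _
      obtain ⟨x', hx', h1⟩ := g1 x.2.1
      obtain ⟨x'', hx'', h2⟩ := g2 x.2.2
      exact mass_two h1 h2 B (fun y hy => hAB x' hx' y hy) (fun y hy => hAB x'' hx'' y hy)
    have h2 : ∑ x ∈ A, ∑ y ∈ B, mu0 (x, y) ≤ A.card * (2 / (3 * ((n : ℝ) * q) ^ 2 * q)) := by
      rw [← nsmul_eq_mul, ← sum_const]
      exact sum_le_sum h1
    have h3 : (A.card : ℝ) * (2 / (3 * ((n : ℝ) * q) ^ 2 * q)) ≤ (6 * (n * (n * q))) * (2 / (3 * ((n : ℝ) * q) ^ 2 * q)) :=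
      mul_le_mul_of_nonneg_right hcard1 (by positivity)
    have h4 : (6 * ((n : ℝ) * (n * q))) * (2 / (3 * ((n : ℝ) * q) ^ 2 * q)) = (4 * n / q) / ((n : ℝ) * q) := by
      field_simp; ring
    have h5 : (4 * (n : ℝ) / q) / ((n : ℝ) * q) ≤ c0 / ((n : ℝ) * q) := by
      apply div_le_div_of_nonneg_right _ hM.le
      rw [div_le_iff₀ hq]; exact hc
    linarith
  rcases hline with ⟨s, hs⟩ | ⟨s, hs⟩
  · refine leaf_P0 hL hL1 hL2 hQ s α β ha hb (fun x hx => hA x fun h => hx (hs x h)) (fun y hy => hB y fun h => ?_)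
    have := card_row y s A hs (fun x hx => by
      have hF := hAB x hx y h
      simp only [F0, decide_eq_true_eq] at hF
      rcases hF with hF | hF
      · rw [hs x hx] at hF; exact absurd hF hy
      · exact hF)
    linarith
  · refine leaf_P1 hL hL1 hL2 hQ s α β ha hb (fun x hx => hA x fun h => hx (hs x h)) (fun y hy => hB y fun h => ?_)
    have := card_col y s A hs (fun x hx => by
      have hF := hAB x hx y h
      simp only [F0, decide_eq_true_eq] at hF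
      rcases hF with hF | hF
      · exact hF
      · rw [hs x hx] at hF; exact absurd hF hy)
    linarith

/-! Total masses. -/

lemma mu0_total : ∑ z : X0 n q × Y0 n q, mu0 z = 1 := by
  rw [Fintype.sum_prod_type]
  simp only [mass_univ, sum_const, card_univ, nsmul_eq_mul]
  simp only [Fintype.card_prod, Fintype.card_fin]
  push_cast
  have hn : (n : ℝ) ≠ 0 := by exact_mod_cast NeZero.ne n
  have hq : (q : ℝ) ≠ 0 := by exact_mod_cast NeZero.ne q
  field_simp

lemma piw_sum (u : Fin 3) : ∑ v, piw u v = 1 / 3 := by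
  have d : ∀ u : Fin 3, u = 0 ∨ u = 1 ∨ u = 2 := by decide
  have d1 : ¬ ((0 : Fin 3) = 1) := by decide
  have d2 : ¬ ((0 : Fin 3) = 2) := by decide
  have d3 : ¬ ((1 : Fin 3) = 0) := by decide
  have d4 : ¬ ((1 : Fin 3) = 2) := by decide
  have d5 : ¬ ((2 : Fin 3) = 0) := by decide
  have d6 : ¬ ((2 : Fin 3) = 1) := by decide
  rcases d u with rfl | rfl | rfl <;>
    simp only [Fin.sum_univ_three, piw, d1, d2, d3, d4, d5, d6, if_true, if_false] <;> norm_num

lemma rho0_total : ∑ z : X0 n q × Y0 n q, rho0 z = 1 := by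
  rw [Fintype.sum_prod_type]
  have h : ∀ x : X0 n q, ∑ y, rho0 (x, y) = 1 / (3 * ((n : ℝ) * q) ^ 2) := by
    intro x
    have hy : ∀ y : Y0 n q, rho0 (x, y) = ((q : ℝ) ^ 2 / (((n : ℝ) * q) ^ 2 * ((q : ℝ) ^ n) ^ 2)) *
        (piw x.1 y.1 * ((if On y.2.1 x.2.1 then (1 : ℝ) else 0) * (if On y.2.2 x.2.2 then (1 : ℝ) else 0))) := by
      intro y
      unfold rho0
      by_cases h1 : On y.2.1 x.2.1
      · by_cases h2 : On y.2.2 x.2.2
        · rw [if_pos ⟨h1, h2⟩, if_pos h1, if_pos h2]; ring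
        · rw [if_neg (fun h => h2 h.2), if_neg h2]; ring
      · rw [if_neg (fun h => h1 h.1), if_neg h1]; ring
    simp only [hy]
    rw [← mul_sum, Fintype.sum_prod_type]
    have e2 : ∀ v : Fin 3, ∑ i : (Fin n → Fin q) × (Fin n → Fin q), piw x.1 ((v, i) : Y0 n q).1 *
        ((if On ((v, i) : Y0 n q).2.1 x.2.1 then (1 : ℝ) else 0) * (if On ((v, i) : Y0 n q).2.2 x.2.2 then (1 : ℝ) else 0)) =
        piw x.1 v * (((q : ℝ) ^ n / q) * ((q : ℝ) ^ n / q)) := by
      intro v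
      show ∑ i : (Fin n → Fin q) × (Fin n → Fin q), piw x.1 v *
        ((if On i.1 x.2.1 then (1 : ℝ) else 0) * (if On i.2 x.2.2 then (1 : ℝ) else 0)) = _
      rw [← mul_sum]
      congr 1
      refine Eq.trans ?_ (congrArg₂ (· * ·) (sum_on x.2.1) (sum_on x.2.2))
      rw [Fintype.sum_prod_type, sum_mul_sum]
    refine (congrArg _ (Finset.sum_congr rfl fun v _ => e2 v)).trans ?_
    rw [← sum_mul, piw_sum]
    have hn : (n : ℝ) ≠ 0 := by exact_mod_cast NeZero.ne n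
    have hq : (q : ℝ) ≠ 0 := by exact_mod_cast NeZero.ne q
    field_simp
  simp only [h, sum_const, card_univ, nsmul_eq_mul]
  simp only [Fintype.card_prod, Fintype.card_fin]
  push_cast
  have hn : (n : ℝ) ≠ 0 := by exact_mod_cast NeZero.ne n
  have hq : (q : ℝ) ≠ 0 := by exact_mod_cast NeZero.ne q
  field_simp

end

/-- mass of the inputs: the function is `true` -/
lemma mu0_F0 (z : X0 n q × Y0 n q) (h : mu0 z ≠ 0) : F0 z.1 z.2 = true := by
  simp only [F0, decide_eq_true_eq]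
  by_contra hc
  push Not at hc
  apply h
  unfold mu0
  rw [if_neg (fun h => hc.1 h.2), if_neg (fun h => hc.2 h.2)]
  simp

lemma rho0_F0 (z : X0 n q × Y0 n q) (h : rho0 z ≠ 0) : F0 z.1 z.2 = true := by
  simp only [F0, decide_eq_true_eq]
  by_contra hc
  push Not at hc
  apply h
  unfold rho0
  rw [if_neg (fun h => hc.1 h.1)]
  simp

end Pool.Agent.X223.EXT
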