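import Mathlib
import Pool.Agent.X223.EXT.Prot
import Pool.Agent.X223.EXT.Struct2

set_option autoImplicit false

namespace Pool.Agent.X223.EXT

open Finset

section
variable {A B X Y : Type} [Fintype A] [Fintype B] [Fintype X] [Fintype Y] [DecidableEq X] [DecidableEq Y]

/-- the image of a distribution -/
noncomputable def push (iX : A → X) (iY : B → Y) (ν : A × B → ℝ) (z : X × Y) : ℝ :=
  ∑ z0 : A × B, if (iX z0.1, iY z0.2) = z then ν z0 else 0

lemma push_sum (iX : A → X) (iY : B → Y) (ν : A × B → ℝ) (g : X × Y → ℝ) :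
    ∑ z, push iX iY ν z * g z = ∑ z0 : A × B, ν z0 * g (iX z0.1, iY z0.2) := by
  unfold push
  simp only [sum_mul]
  rw [sum_comm]
  refine sum_congr rfl fun z0 _ => ?_
  rw [Fintype.sum_eq_single (iX z0.1, iY z0.2)]
  · rw [if_pos rfl]
  · intro z hz; rw [if_neg (fun h => hz h.symm), zero_mul]

lemma push_isDist (iX : A → X) (iY : B → Y) {ν : A × B → ℝ} (h : IsDist ν) : IsDist (push iX iY ν) := by
  refine ⟨fun z => sum_nonneg fun z0 _ => ?_, ?_⟩
  · split_ifs
    · exact h.1 z0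
    · exact le_rfl
  · have := push_sum iX iY ν (fun _ => 1)
    simp only [mul_one] at this
    rw [this, h.2]

end

variable {X Y : Type} [Fintype X] [Fintype Y] [DecidableEq X] [DecidableEq Y]

open Protocol in
theorem ext_lower {n q : ℕ} [NeZero n] [NeZero q] {L : ℝ} (hL : 1 < L) (hL1 : 1 / Real.log L ≤ 1 / 20000)
    (hL2 : 2 / Real.log L + 1 / √(n : ℝ) * L ≤ 1 / 2000) (hQ : 2000 ≤ (q : ℝ))
    (hc : 4 * (n : ℝ) ≤ (Real.exp (-99.8) / 6) * q)
    (iX : X0 n q → X) (iY : Y0 n q → Y) (rX : X → X0 n q) (rY : Y → Y0 n q) (hX : ∀ x, rX (iX x) = x) (hY : ∀ y, rY (iY y) = y)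
    (P : Protocol X Y Bool) (hP : P.Valid) (hZ : P.ZeroError fun x y => F0 (rX x) (rY y)) :
    Real.log (6 * ((n : ℝ) * q)) - 0.2 ≤ P.extInfo (push iX iY mu0) * Real.log 2 := by
  have hl2 : Real.log 2 ≠ 0 := (Real.log_pos (by norm_num)).ne'
  -- the information as a sum over the small inputs
  have e0 : ∀ t, P.probOf (push iX iY mu0) t = ∑ z : X0 n q × Y0 n q, mu0 z * (P.pa (iX z.1) t * P.pb (iY z.2) t) := by
    intro t
    unfold probOf
    rw [push_sum iX iY mu0 (fun z => P.prob z.1 z.2 t)]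
    refine sum_congr rfl fun z _ => ?_
    rw [prob_eq]
  have e1 : P.extInfo (push iX iY mu0) * Real.log 2 = ∑ t ∈ P.transcripts, ∑ z : X0 n q × Y0 n q,
      mu0 z * (P.pa (iX z.1) t * P.pb (iY z.2) t * Real.log (P.pa (iX z.1) t * P.pb (iY z.2) t /
        ∑ w : X0 n q × Y0 n q, mu0 w * (P.pa (iX w.1) t * P.pb (iY w.2) t))) := by
    unfold extInfo
    rw [sum_mul]
    refine sum_congr rfl fun t _ => ?_
    rw [← e0 t]
    have : ∀ z : X × Y, push iX iY mu0 z * P.prob z.1 z.2 t * Real.logb 2 (P.prob z.1 z.2 t / P.probOf (push iX iY mu0) t) =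
        push iX iY mu0 z * (P.prob z.1 z.2 t * Real.logb 2 (P.prob z.1 z.2 t / P.probOf (push iX iY mu0) t)) := by
      intro z; ring
    simp only [this]
    rw [push_sum iX iY mu0 (fun z => P.prob z.1 z.2 t * Real.logb 2 (P.prob z.1 z.2 t / P.probOf (push iX iY mu0) t)), sum_mul]
    refine sum_congr rfl fun z _ => ?_
    simp only [prob_eq, Real.logb]
    field_simp
  rw [e1]
  -- each transcript
  have key : ∀ t ∈ P.transcripts, (Real.log (6 * ((n : ℝ) * q)) + 99.8) * ∑ z : X0 n q × Y0 n q, mu0 z * (P.pa (iX z.1) t * P.pb (iY z.2) t) ≤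
      (∑ z : X0 n q × Y0 n q, mu0 z * (P.pa (iX z.1) t * P.pb (iY z.2) t * Real.log (P.pa (iX z.1) t * P.pb (iY z.2) t /
        ∑ w : X0 n q × Y0 n q, mu0 w * (P.pa (iX w.1) t * P.pb (iY w.2) t)))) +
      100 * ∑ z : X0 n q × Y0 n q, rho0 z * (P.pa (iX z.1) t * P.pb (iY z.2) t) := by
    intro t ht
    by_cases ho : P.outputOf t = some true
    · apply LI_all hL hL1 hL2 hQ hc (fun x => P.pa (iX x) t) (fun y => P.pb (iY y) t) (fun x => pa_nonneg _ hP t)
        (fun y => pb_nonneg _ hP t)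
      intro x y hx hy
      have h1 := hZ (iX x) (iY y) t ht (by rw [prob_eq]; exact mul_ne_zero hx hy)
      rw [ho] at h1
      simp only [hX, hY, Option.some.injEq] at h1
      exact h1.symm
    · have hz : ∀ z : X0 n q × Y0 n q, F0 z.1 z.2 = true → P.pa (iX z.1) t * P.pb (iY z.2) t = 0 := by
        intro z hF
        by_contra hne
        apply ho
        have h1 := hZ (iX z.1) (iY z.2) t ht (by rw [prob_eq]; exact hne)
        simp only [hX, hY, hF] at h1
        exact h1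
      have hm : ∀ z : X0 n q × Y0 n q, mu0 z * (P.pa (iX z.1) t * P.pb (iY z.2) t) = 0 := by
        intro z
        by_cases h : mu0 z = 0
        · rw [h, zero_mul]
        · rw [hz z (mu0_F0 z h), mul_zero]
      have hr : ∀ z : X0 n q × Y0 n q, rho0 z * (P.pa (iX z.1) t * P.pb (iY z.2) t) = 0 := by
        intro z
        by_cases h : rho0 z = 0
        · rw [h, zero_mul]
        · rw [hz z (rho0_F0 z h), mul_zero]
      have e2 : ∑ z : X0 n q × Y0 n q, mu0 z * (P.pa (iX z.1) t * P.pb (iY z.2) t) = 0 := sum_eq_zero fun z _ => hm z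
      have e3 : ∑ z : X0 n q × Y0 n q, rho0 z * (P.pa (iX z.1) t * P.pb (iY z.2) t) = 0 := sum_eq_zero fun z _ => hr z
      have e4 : ∑ z : X0 n q × Y0 n q, mu0 z * (P.pa (iX z.1) t * P.pb (iY z.2) t * Real.log (P.pa (iX z.1) t * P.pb (iY z.2) t /
        ∑ w : X0 n q × Y0 n q, mu0 w * (P.pa (iX w.1) t * P.pb (iY w.2) t))) = 0 := by
        refine sum_eq_zero fun z _ => ?_
        rw [← mul_assoc, hm z, zero_mul]
      rw [e4, e2, e3]; simp
  have hsum := sum_le_sum key
  rw [sum_add_distrib, ← mul_sum, ← mul_sum] at hsum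
  have t1 : ∀ ν : X0 n q × Y0 n q → ℝ, ∑ t ∈ P.transcripts, ∑ z : X0 n q × Y0 n q, ν z * (P.pa (iX z.1) t * P.pb (iY z.2) t) = ∑ z, ν z := by
    intro ν
    rw [sum_comm]
    refine sum_congr rfl fun z _ => ?_
    rw [← mul_sum]
    have h2 := sum_prob (iX z.1) (iY z.2) P
    simp only [prob_eq] at h2
    rw [h2, mul_one]
  rw [t1, t1, mu0_total, rho0_total] at hsum
  linarith

end Pool.Agent.X223.EXT
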