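import Mathlib
import Pool.Agent.X223.EXT.Lower

set_option autoImplicit false

namespace Pool.Agent.X223.EXT

open Finset

/-! Random functions on a finite type. -/

section rnd
variable {ι κ : Type} [Fintype ι] [DecidableEq ι] [Fintype κ] [Nonempty κ]

lemma avg_pi' (w : ι → κ → ℝ) : avg (fun f : ι → κ => ∏ i, w i (f i)) = ∏ i, avg (w i) := by
  unfold avg
  rw [prod_div_distrib, Finset.prod_univ_sum, Fintype.piFinset_univ]
  congr 1
  simp [Fintype.card_pi]

lemma avg_pi_two' {c c' : ι} (hc : c ≠ c') (g h : κ → ℝ) :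
    avg (fun f : ι → κ => g (f c) * h (f c')) = avg g * avg h := by
  have H := avg_pi' (ι := ι) (κ := κ) (fun i => if i = c then g else if i = c' then h else fun _ => 1)
  have e1 : (fun f : ι → κ => ∏ i, (if i = c then g else if i = c' then h else fun _ => (1 : ℝ)) (f i))
      = fun f => g (f c) * h (f c') := by
    funext f
    rw [Fintype.prod_eq_mul c c' hc]
    · simp [hc.symm]
    · intro i hi; simp [hi.1, hi.2]
  have e2 : ∏ i, avg (if i = c then g else if i = c' then h else fun _ => (1 : ℝ)) = avg g * avg h := by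
    rw [Fintype.prod_eq_mul c c' hc]
    · simp [hc.symm]
    · intro i hi; simp only [hi.1, hi.2, if_false]; exact avg_const 1
  rw [e1, e2] at H
  exact H

lemma avg_indicator [DecidableEq κ] (b : κ) : avg (fun k : κ => if k = b then (1 : ℝ) else 0) = 1 / Fintype.card κ := by
  unfold avg; rw [sum_ite_eq' univ b, if_pos (mem_univ _)]

lemma avg_collision [DecidableEq κ] {c c' : ι} (hc : c ≠ c') :
    avg (fun f : ι → κ => if f c = f c' then (1 : ℝ) else 0) = 1 / Fintype.card κ := by
  have e : (fun f : ι → κ => if f c = f c' then (1 : ℝ) else 0) =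
      fun f => ∑ b, (if f c = b then (1 : ℝ) else 0) * (if f c' = b then (1 : ℝ) else 0) := by
    funext f
    by_cases h : f c = f c'
    · rw [if_pos h, Fintype.sum_eq_single (f c)]
      · rw [if_pos rfl, if_pos h.symm, mul_one]
      · intro b hb; rw [if_neg (fun h' => hb h'.symm), zero_mul]
    · rw [if_neg h]
      symm
      refine sum_eq_zero fun b _ => ?_
      by_cases h1 : f c = b
      · rw [if_neg (fun h2 : f c' = b => h (h1.trans h2.symm)), mul_zero]
      · rw [if_neg h1, zero_mul]
  have e2 : ∀ b : κ, avg (fun f : ι → κ => (if f c = b then (1 : ℝ) else 0) * (if f c' = b then (1 : ℝ) else 0)) =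
      (1 / Fintype.card κ) * (1 / Fintype.card κ) := by
    intro b
    rw [avg_pi_two' hc (fun k => if k = b then (1 : ℝ) else 0) (fun k => if k = b then (1 : ℝ) else 0), avg_indicator]
  rw [e, avg_sum]
  simp only [e2, sum_const, card_univ, nsmul_eq_mul]
  have : (Fintype.card κ : ℝ) ≠ 0 := card_pos'.ne'
  field_simp

end rnd

/-- two different admissible strings of hints with the same hash value -/
def Bad {N B : ℕ} (h : (Fin N → Fin 3) → Fin B) (u v : Fin N → Fin 3) : Prop :=
  ∃ v' : Fin N → Fin 3, v' ≠ v ∧ (∀ i, v' i ≠ u i) ∧ h v' = h v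

lemma card_cand {N : ℕ} (u : Fin N → Fin 3) : Fintype.card {v : Fin N → Fin 3 // ∀ i, v i ≠ u i} = 2 ^ N := by
  have e : {v : Fin N → Fin 3 // ∀ i, v i ≠ u i} ≃ ((i : Fin N) → {k : Fin 3 // k ≠ u i}) :=
    { toFun := fun v i => ⟨v.1 i, v.2 i⟩
      invFun := fun w => ⟨fun i => (w i).1, fun i => (w i).2⟩
      left_inv := fun v => rfl
      right_inv := fun w => rfl }
  rw [Fintype.card_congr e, Fintype.card_pi]
  have : ∀ k : Fin 3, Fintype.card {j : Fin 3 // j ≠ k} = 2 := by decide
  simp [this]

open Classical in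
lemma avg_bad {N r0 : ℕ} (u v : Fin N → Fin 3) :
    avg (fun h : (Fin N → Fin 3) → Fin (2 ^ (N + r0)) => if Bad h u v then (1 : ℝ) else 0) ≤ 1 / 2 ^ r0 := by
  calc avg (fun h : (Fin N → Fin 3) → Fin (2 ^ (N + r0)) => if Bad h u v then (1 : ℝ) else 0)
      ≤ avg (fun h : (Fin N → Fin 3) → Fin (2 ^ (N + r0)) => ∑ v' : {v' : Fin N → Fin 3 // ∀ i, v' i ≠ u i},
          if v'.1 ≠ v then (if h v'.1 = h v then (1 : ℝ) else 0) else 0) := by
        refine avg_mono fun h => ?_
        by_cases hb : Bad h u v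
        · obtain ⟨v', h1, h2, h3⟩ := id hb
          rw [if_pos hb]
          have := single_le_sum (f := fun v' : {v' : Fin N → Fin 3 // ∀ i, v' i ≠ u i} =>
            if v'.1 ≠ v then (if h v'.1 = h v then (1 : ℝ) else 0) else 0) (s := univ)
            (fun w _ => by split_ifs <;> norm_num) (mem_univ ⟨v', h2⟩)
          refine le_trans ?_ this
          dsimp only
          rw [if_pos h1, if_pos h3]
        · rw [if_neg hb]
          exact sum_nonneg fun w _ => by split_ifs <;> norm_num
    _ = ∑ v' : {v' : Fin N → Fin 3 // ∀ i, v' i ≠ u i}, avg (fun h : (Fin N → Fin 3) → Fin (2 ^ (N + r0)) =>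
          if v'.1 ≠ v then (if h v'.1 = h v then (1 : ℝ) else 0) else 0) := avg_sum _
    _ ≤ ∑ _v' : {v' : Fin N → Fin 3 // ∀ i, v' i ≠ u i}, (1 / 2 ^ (N + r0) : ℝ) := by
        refine sum_le_sum fun v' _ => ?_
        by_cases hv : v'.1 ≠ v
        · simp only [if_pos hv]
          rw [avg_collision hv, Fintype.card_fin]
          push_cast
          exact le_rfl
        · simp only [if_neg hv, avg_const]
          positivity
    _ = 1 / 2 ^ r0 := by
        rw [sum_const, card_univ, card_cand, nsmul_eq_mul]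
        push_cast
        rw [pow_add]
        field_simp

/-! The product distribution. -/

section prod
variable {X Y : Type} [Fintype X] [Fintype Y]

lemma copiesDist_isDist {μ : X × Y → ℝ} (h : IsDist μ) (N : ℕ) : IsDist (copiesDist N μ) := by
  classical
  refine ⟨fun z => prod_nonneg fun i _ => h.1 _, ?_⟩
  have e := Fintype.sum_equiv (Equiv.arrowProdEquivProdArrow (Fin N) (fun _ => X) (fun _ => Y))
    (fun w : Fin N → X × Y => ∏ i, μ (w i)) (fun z => copiesDist N μ z) (fun w => rfl)
  rw [← e]
  have e2 := Finset.prod_univ_sum (fun _ : Fin N => (univ : Finset (X × Y))) (fun _ z => μ z)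
  rw [Fintype.piFinset_univ] at e2
  rw [← e2]
  simp [h.2]

end prod

section proto

open Protocol Classical

variable {m n q N r0 : ℕ} [NeZero n] [NeZero q]

/-- Alice's decoding of the hints of Bob -/
noncomputable def dec {B : ℕ} (h : (Fin N → Fin 3) → Fin B) (u : Fin N → Fin 3) (b : Fin B) : Fin N → Fin 3 :=
  if e : ∃ v : Fin N → Fin 3, (∀ i, v i ≠ u i) ∧ h v = b then e.choose else fun _ => 0

/-- Alice's certificate -/
noncomputable def msg {X : Type} {B : ℕ} (rX : X → X0 n q) (h : (Fin N → Fin 3) → Fin B) (x : Fin N → X) (b : Fin B) :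
    Fin N → Bool × (Fin n × Fin q) := fun i =>
  if dec h (fun i => (rX (x i)).1) b i = (rX (x i)).1 + 1 then (true, (rX (x i)).2.1) else (false, (rX (x i)).2.2)

/-- Bob accepts the certificate -/
def Acc {Y : Type} (rY : Y → Y0 n q) (w : Fin N → Bool × (Fin n × Fin q)) (y : Fin N → Y) : Prop :=
  ∀ i, if (w i).1 = true then On (rY (y i)).2.1 (w i).2 else On (rY (y i)).2.2 (w i).2

lemma acc_correct {X Y : Type} {B : ℕ} (rX : X → X0 n q) (rY : Y → Y0 n q) (h : (Fin N → Fin 3) → Fin B) (x : Fin N → X)
    (y : Fin N → Y) (b : Fin B) (hA : Acc rY (msg rX h x b) y) : copies N (fun x y => F0 (rX x) (rY y)) x y = fun _ => true := by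
  funext i
  simp only [copies, F0, decide_eq_true_eq]
  have := hA i
  unfold msg at this
  by_cases hd : dec h (fun i => (rX (x i)).1) b i = (rX (x i)).1 + 1
  · simp only [hd, if_true] at this
    exact Or.inl this
  · simp only [hd, if_false, Bool.false_eq_true] at this
    exact Or.inr this

theorem exists_protocol {X Y : Type} [Fintype X] [Nonempty X] (hXc : Fintype.card X = 2 ^ m) (rX : X → X0 n q) (rY : Y → Y0 n q)
    (l : ℕ) (hnq : 2 * (n * q) = 2 ^ l) (h : (Fin N → Fin 3) → Fin (2 ^ (N + r0))) :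
    ∃ P : Protocol (Fin N → X) (Fin N → Y) (Fin N → Bool), P.Valid ∧ P.ZeroError (copies N fun x y => F0 (rX x) (rY y)) ∧
      ∀ x y, cost x y P = ((N : ℝ) + r0) + N * l + 1 +
        (if Acc rY (msg rX h x (h fun i => (rY (y i)).1)) y then 0 else (m * N + N : ℝ)) := by
  set FN := copies N (fun (x : X) (y : Y) => F0 (rX x) (rY y)) with hFN
  -- Bob sends the values
  have s5 : ∀ x' : Fin N → X, ∃ P : Protocol (Fin N → X) (Fin N → Y) (Fin N → Bool), P.Valid ∧ (∀ x y, cost x y P = N) ∧
      ∀ x y, OK x y (FN x' y) P := by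
    intro x'
    obtain ⟨P, h1, h2, h3⟩ := exists_msgB (X := Fin N → X) (Y := Fin N → Y) (O := Fin N → Bool) (W := Fin N → Bool) (k := N)
      (by simp) (fun y => FN x' y) (fun w => output w) (fun w => trivial)
    refine ⟨P, h1, fun x y => ?_, fun x y => h3 x y _ (ok_output x y _)⟩
    rw [h2, cost_output, add_zero]
  choose P5 v5 c5 o5 using s5
  -- Alice sends her input
  obtain ⟨P4, v4, c4, o4⟩ := exists_msgA (X := Fin N → X) (Y := Fin N → Y) (O := Fin N → Bool) (W := Fin N → X) (k := m * N)
    (by rw [Fintype.card_fun, hXc, Fintype.card_fin, ← pow_mul]) (fun x => x) P5 v5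
  -- Bob accepts or not
  have s3 : ∀ w : Fin N → Bool × (Fin n × Fin q), ∃ P : Protocol (Fin N → X) (Fin N → Y) (Fin N → Bool), P.Valid ∧
      (∀ x y, cost x y P = 1 + (if Acc rY w y then 0 else (m * N + N : ℝ))) ∧
      ∀ x y, (Acc rY w y → FN x y = fun _ => true) → OK x y (FN x y) P := by
    intro w
    obtain ⟨P, h1, h2, h3⟩ := exists_msgB (X := Fin N → X) (Y := Fin N → Y) (O := Fin N → Bool) (W := Bool) (k := 1)
      (by simp) (fun y => decide (Acc rY w y)) (fun b => if b = true then output (fun _ => true) else P4)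
      (fun b => by cases b <;> simp [v4, Valid])
    refine ⟨P, h1, fun x y => ?_, fun x y hxy => h3 x y _ ?_⟩
    · rw [h2]
      by_cases hA : Acc rY w y
      · simp only [hA, decide_true, if_true, cost_output]; push_cast; ring
      · simp only [hA, decide_false, Bool.false_eq_true, if_false, c4, c5]; push_cast; ring
    · by_cases hA : Acc rY w y
      · simp only [hA, decide_true, if_true, hxy hA]; exact ok_output _ _ _
      · simp only [hA, decide_false, Bool.false_eq_true, if_false]; exact o4 x y _ (o5 x x y)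
  choose P3 v3 c3 o3 using s3
  -- Alice's certificate
  have s2 : ∀ b : Fin (2 ^ (N + r0)), ∃ P : Protocol (Fin N → X) (Fin N → Y) (Fin N → Bool), P.Valid ∧
      (∀ x y, cost x y P = ((l * N : ℕ) : ℝ) + cost x y (P3 (msg rX h x b))) ∧
      ∀ x y o, OK x y o (P3 (msg rX h x b)) → OK x y o P := by
    intro b
    refine exists_msgA (X := Fin N → X) (Y := Fin N → Y) (O := Fin N → Bool) (W := Fin N → Bool × (Fin n × Fin q)) (k := l * N)
      (by rw [Fintype.card_fun, Fintype.card_prod, Fintype.card_prod, Fintype.card_bool]; simp only [Fintype.card_fin]; rw [hnq, ← pow_mul])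
      (fun x => msg rX h x b) P3 v3
  choose P2 v2 c2 o2 using s2
  obtain ⟨P1, v1, c1, o1⟩ := exists_msgB (X := Fin N → X) (Y := Fin N → Y) (O := Fin N → Bool) (W := Fin (2 ^ (N + r0))) (k := N + r0)
    (by simp) (fun y => h fun i => (rY (y i)).1) P2 v2
  refine ⟨P1, v1, fun x y => ?_, fun x y => ?_⟩
  · exact o1 x y _ (o2 _ x y _ (o3 _ x y fun hA => acc_correct rX rY h x y _ hA))
  · rw [c1, c2, c3]; push_cast; ring

end proto

end Pool.Agent.X223.EXT
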