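import Mathlib
import Pool.Agent.X223.EXT.Upper

set_option autoImplicit false

namespace Pool.Agent.X223.EXT

open Finset Protocol Classical

section
variable {X Y O : Type} [Fintype X] [Fintype Y]

lemma expBits_eq (μ : X × Y → ℝ) (P : Protocol X Y O) : P.expBits μ = ∑ z, μ z * cost z.1 z.2 P := by
  unfold expBits cost
  rw [sum_comm]
  refine sum_congr rfl fun z _ => ?_
  rw [mul_sum]
  exact sum_congr rfl fun t _ => by ring

lemma expBits_nonneg {μ : X × Y → ℝ} (h : IsDist μ) {P : Protocol X Y O} (hP : P.Valid) : 0 ≤ P.expBits μ := by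
  unfold expBits
  exact sum_nonneg fun t _ => sum_nonneg fun z _ => mul_nonneg (mul_nonneg (h.1 z) (prob_nonneg _ _ hP t)) (Nat.cast_nonneg _)

lemma CC_le {μ : X × Y → ℝ} (h : IsDist μ) {F : X → Y → O} {P : Protocol X Y O} (hP : P.Valid) (hZ : P.ZeroError F) :
    CC F μ ≤ P.expBits μ :=
  csInf_le ⟨0, by rintro c ⟨P, h1, _, rfl⟩; exact expBits_nonneg h h1⟩ ⟨P, hP, hZ, rfl⟩

end

lemma fin3_d : ∀ u v : Fin 3, v = u + 1 → v ≠ u := by decide
lemma fin3_e : ∀ u v : Fin 3, v = u + 2 → v ≠ u := by decide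
lemma fin3_f : ∀ u v : Fin 3, v = u + 2 → v ≠ u + 1 := by decide

section
variable {X Y : Type} [Fintype X] [Fintype Y] [DecidableEq X] [DecidableEq Y] {n q N r0 : ℕ} [NeZero n] [NeZero q]

lemma support_push {iX : X0 n q → X} {iY : Y0 n q → Y} {rX : X → X0 n q} {rY : Y → Y0 n q} (hX : ∀ x, rX (iX x) = x)
    (hY : ∀ y, rY (iY y) = y) {x : X} {y : Y} (h : push iX iY (mu0 (n := n) (q := q)) (x, y) ≠ 0) :
    ((rY y).1 = (rX x).1 + 1 ∧ On (rY y).2.1 (rX x).2.1) ∨ ((rY y).1 = (rX x).1 + 2 ∧ On (rY y).2.2 (rX x).2.2) := by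
  obtain ⟨z0, _, hz0⟩ := exists_ne_zero_of_sum_ne_zero h
  by_cases he : (iX z0.1, iY z0.2) = (x, y)
  · rw [if_pos he] at hz0
    simp only [Prod.mk.injEq] at he
    rw [← he.1, ← he.2, hX, hY]
    by_contra hc
    push Not at hc
    apply hz0
    unfold mu0
    rw [if_neg (fun h => hc.1 h.1 h.2), if_neg (fun h => hc.2 h.1 h.2)]
    simp
  · rw [if_neg he] at hz0; exact absurd rfl hz0

lemma acc_or_bad {iX : X0 n q → X} {iY : Y0 n q → Y} {rX : X → X0 n q} {rY : Y → Y0 n q} (hX : ∀ x, rX (iX x) = x)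
    (hY : ∀ y, rY (iY y) = y) (h : (Fin N → Fin 3) → Fin (2 ^ (N + r0))) (z : (Fin N → X) × (Fin N → Y))
    (hz : copiesDist N (push iX iY (mu0 (n := n) (q := q))) z ≠ 0)
    (hA : ¬ Acc rY (msg rX h z.1 (h fun i => (rY (z.2 i)).1)) z.2) :
    Bad h (fun i => (rX (z.1 i)).1) (fun i => (rY (z.2 i)).1) := by
  have hs : ∀ i, ((rY (z.2 i)).1 = (rX (z.1 i)).1 + 1 ∧ On (rY (z.2 i)).2.1 (rX (z.1 i)).2.1) ∨
      ((rY (z.2 i)).1 = (rX (z.1 i)).1 + 2 ∧ On (rY (z.2 i)).2.2 (rX (z.1 i)).2.2) := by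
    intro i
    apply support_push hX hY
    unfold copiesDist at hz
    exact (prod_ne_zero_iff.1 hz) i (mem_univ i)
  have hex : ∃ v : Fin N → Fin 3, (∀ i, v i ≠ (fun i => (rX (z.1 i)).1) i) ∧ h v = h fun i => (rY (z.2 i)).1 := by
    refine ⟨fun i => (rY (z.2 i)).1, fun i => ?_, rfl⟩
    rcases hs i with h1 | h1
    · exact fin3_d _ _ h1.1
    · exact fin3_e _ _ h1.1
  by_contra hB
  apply hA
  have hd : dec h (fun i => (rX (z.1 i)).1) (h fun i => (rY (z.2 i)).1) = fun i => (rY (z.2 i)).1 := by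
    unfold dec
    rw [dif_pos hex]
    by_contra hne
    exact hB ⟨hex.choose, hne, hex.choose_spec.1, hex.choose_spec.2⟩
  intro i
  unfold msg
  rw [hd]
  dsimp only
  rcases hs i with h1 | h1
  · rw [if_pos h1.1]
    simp only [if_true]
    exact h1.2
  · rw [if_neg (fin3_f _ _ h1.1)]
    simp only [Bool.false_eq_true, if_false]
    exact h1.2

lemma exists_hash {iX : X0 n q → X} {iY : Y0 n q → Y} {rX : X → X0 n q} {rY : Y → Y0 n q} (hX : ∀ x, rX (iX x) = x)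
    (hY : ∀ y, rY (iY y) = y) (N r0 : ℕ) : ∃ h : (Fin N → Fin 3) → Fin (2 ^ (N + r0)),
      ∑ z, copiesDist N (push iX iY (mu0 (n := n) (q := q))) z *
        (if Acc rY (msg rX h z.1 (h fun i => (rY (z.2 i)).1)) z.2 then (0 : ℝ) else 1) ≤ 1 / 2 ^ r0 := by
  set μN := copiesDist N (push iX iY (mu0 (n := n) (q := q))) with hμN
  have hd : IsDist μN := copiesDist_isDist (push_isDist iX iY ⟨mu0_nonneg, mu0_total⟩) N
  have main : ∃ h : (Fin N → Fin 3) → Fin (2 ^ (N + r0)),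
      ∑ z : (Fin N → X) × (Fin N → Y), μN z * (if Bad h (fun i => (rX (z.1 i)).1) (fun i => (rY (z.2 i)).1) then (1 : ℝ) else 0) ≤ 1 / 2 ^ r0 := by
    by_contra hcon
    push Not at hcon
    have h1 : avg (fun h : (Fin N → Fin 3) → Fin (2 ^ (N + r0)) =>
        ∑ z : (Fin N → X) × (Fin N → Y), μN z * (if Bad h (fun i => (rX (z.1 i)).1) (fun i => (rY (z.2 i)).1) then (1 : ℝ) else 0)) ≤ 1 / 2 ^ r0 := by
      rw [avg_sum]
      calc _ ≤ ∑ z : (Fin N → X) × (Fin N → Y), μN z * (1 / 2 ^ r0) := by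
            refine sum_le_sum fun z _ => ?_
            rw [avg_const_mul]
            exact mul_le_mul_of_nonneg_left (avg_bad _ _) (hd.1 z)
        _ = 1 / 2 ^ r0 := by rw [← sum_mul, hd.2, one_mul]
    have h2 : (1 / 2 ^ r0 : ℝ) < avg (fun h : (Fin N → Fin 3) → Fin (2 ^ (N + r0)) =>
        ∑ z : (Fin N → X) × (Fin N → Y), μN z * (if Bad h (fun i => (rX (z.1 i)).1) (fun i => (rY (z.2 i)).1) then (1 : ℝ) else 0)) := by
      unfold avg
      rw [lt_div_iff₀ card_pos', mul_comm, ← nsmul_eq_mul]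
      have : Fintype.card ((Fin N → Fin 3) → Fin (2 ^ (N + r0))) • (1 / 2 ^ r0 : ℝ) = ∑ _h : (Fin N → Fin 3) → Fin (2 ^ (N + r0)), (1 / 2 ^ r0 : ℝ) := by
        rw [sum_const, card_univ]
      rw [this]
      exact sum_lt_sum_of_nonempty univ_nonempty fun h _ => hcon h
    linarith
  obtain ⟨h, hh⟩ := main
  refine ⟨h, le_trans (sum_le_sum fun z _ => ?_) hh⟩
  by_cases hz : μN z = 0
  · rw [hz]; simp
  · apply mul_le_mul_of_nonneg_left _ (hd.1 z)
    by_cases hA : Acc rY (msg rX h z.1 (h fun i => (rY (z.2 i)).1)) z.2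
    · rw [if_pos hA]; split_ifs <;> norm_num
    · rw [if_neg hA, if_pos (acc_or_bad hX hY h z hz hA)]

theorem CC_upper {m l : ℕ} [Nonempty X] (hXc : Fintype.card X = 2 ^ m) (hnq : 2 * (n * q) = 2 ^ l)
    {iX : X0 n q → X} {iY : Y0 n q → Y} {rX : X → X0 n q} {rY : Y → Y0 n q} (hX : ∀ x, rX (iX x) = x)
    (hY : ∀ y, rY (iY y) = y) (N r0 : ℕ) :
    CC (copies N fun x y => F0 (rX x) (rY y)) (copiesDist N (push iX iY (mu0 (n := n) (q := q)))) ≤
      ((N : ℝ) + r0) + N * l + 1 + (m * N + N) * (1 / 2 ^ r0) := by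
  obtain ⟨h, hh⟩ := exists_hash (n := n) (q := q) hX hY N r0
  obtain ⟨P, hP, hZ, hc⟩ := exists_protocol (N := N) (r0 := r0) hXc rX rY l hnq h
  have hd : IsDist (copiesDist N (push iX iY (mu0 (n := n) (q := q)))) :=
    copiesDist_isDist (push_isDist iX iY ⟨mu0_nonneg, mu0_total⟩) N
  refine (CC_le hd hP hZ).trans ?_
  rw [expBits_eq]
  simp only [hc]
  have e : ∀ z : (Fin N → X) × (Fin N → Y), copiesDist N (push iX iY (mu0 (n := n) (q := q))) z * (((N : ℝ) + r0) + N * l + 1 +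
        (if Acc rY (msg rX h z.1 (h fun i => (rY (z.2 i)).1)) z.2 then 0 else (m * N + N : ℝ))) =
      copiesDist N (push iX iY (mu0 (n := n) (q := q))) z * (((N : ℝ) + r0) + N * l + 1) +
      (m * N + N : ℝ) * (copiesDist N (push iX iY (mu0 (n := n) (q := q))) z * (if Acc rY (msg rX h z.1 (h fun i => (rY (z.2 i)).1)) z.2 then (0 : ℝ) else 1)) := by
    intro z
    split_ifs <;> ring
  simp only [e]
  rw [sum_add_distrib, ← sum_mul, hd.2, one_mul, ← mul_sum]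
  exact add_le_add le_rfl (mul_le_mul_of_nonneg_left hh (by positivity))

theorem ICext_lower [Nonempty X] [Nonempty Y] {m : ℕ} (hXc : Fintype.card X = 2 ^ m) (hYc : Fintype.card Y = 2 ^ m)
    {L : ℝ} (hL : 1 < L) (hL1 : 1 / Real.log L ≤ 1 / 20000)
    (hL2 : 2 / Real.log L + 1 / √(n : ℝ) * L ≤ 1 / 2000) (hQ : 2000 ≤ (q : ℝ))
    (hc : 4 * (n : ℝ) ≤ (Real.exp (-99.8) / 6) * q)
    {iX : X0 n q → X} {iY : Y0 n q → Y} {rX : X → X0 n q} {rY : Y → Y0 n q} (hX : ∀ x, rX (iX x) = x)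
    (hY : ∀ y, rY (iY y) = y) :
    (Real.log (6 * ((n : ℝ) * q)) - 0.2) / Real.log 2 ≤ ICext (fun x y => F0 (rX x) (rY y)) (push iX iY (mu0 (n := n) (q := q))) := by
  unfold ICext
  apply le_csInf
  · -- the trivial protocol
    have s5 : ∀ x' : X, ∃ P : Protocol X Y Bool, P.Valid ∧ ∀ x y, OK x y (F0 (rX x') (rY y)) P := by
      intro x'
      obtain ⟨P, h1, _, h3⟩ := exists_msgB (X := X) (Y := Y) (O := Bool) (W := Bool) (k := 1)
        (by simp) (fun y => F0 (rX x') (rY y)) (fun w => output w) (fun w => trivial)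
      exact ⟨P, h1, fun x y => h3 x y _ (ok_output x y _)⟩
    choose P5 v5 o5 using s5
    obtain ⟨P4, v4, _, o4⟩ := exists_msgA (X := X) (Y := Y) (O := Bool) (W := X) (k := m) hXc.le (fun x => x) P5 v5
    exact ⟨_, P4, v4, fun x y => o4 x y _ (o5 x x y), rfl⟩
  · rintro c ⟨P, hP, hZ, rfl⟩
    rw [div_le_iff₀ (Real.log_pos (by norm_num))]
    exact ext_lower hL hL1 hL2 hQ hc iX iY rX rY hX hY P hP hZ

end

lemma numeric : (2.2 : ℝ) * Real.log 2 < Real.log 6 - 0.2 := by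
  have h6 : Real.log 6 = Real.log 2 + Real.log 3 := by
    rw [← Real.log_mul (by norm_num) (by norm_num)]; norm_num
  have h3 : 3 * Real.log 2 < 2 * Real.log 3 := by
    have e1 : 3 * Real.log 2 = Real.log 8 := by
      rw [show (8 : ℝ) = 2 ^ 3 by norm_num, Real.log_pow]; norm_num
    have e2 : 2 * Real.log 3 = Real.log 9 := by
      rw [show (9 : ℝ) = 3 ^ 2 by norm_num, Real.log_pow]; norm_num
    rw [e1, e2]
    exact Real.log_lt_log (by norm_num) (by norm_num)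
  have h2 := Real.log_two_gt_d9
  linarith

/-- The amortized zero-error communication complexity of a function can be smaller than its zero-error external
information complexity. -/
theorem main : ∃ (m : ℕ) (F : (Fin m → Bool) → (Fin m → Bool) → Bool) (μ : (Fin m → Bool) × (Fin m → Bool) → ℝ),
    1 ≤ m ∧ IsDist μ ∧ ∃ c : ℝ, c < ICext F μ ∧ ∀ᶠ N : ℕ in Filter.atTop, CC (copies N F) (copiesDist N μ) / N ≤ c := by
  -- the parameters
  set L : ℝ := Real.exp 20000 with hL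
  have hLlog : Real.log L = 20000 := Real.log_exp _
  have hL1 : 1 < L := Real.one_lt_exp_iff.2 (by norm_num)
  obtain ⟨l1, hl1⟩ : ∃ l1 : ℕ, (L * 10000) ^ 2 ≤ (2 : ℝ) ^ l1 := by
    obtain ⟨l1, h⟩ := pow_unbounded_of_one_lt ((L * 10000) ^ 2) (show (1 : ℝ) < 2 by norm_num)
    exact ⟨l1, h.le⟩
  set n : ℕ := 2 ^ l1 with hn
  have hnR : ((n : ℕ) : ℝ) = (2 : ℝ) ^ l1 := by rw [hn]; push_cast; rfl
  obtain ⟨l2, hl2⟩ : ∃ l2 : ℕ, max 2000 (4 * (n : ℝ) / (Real.exp (-99.8) / 6)) ≤ (2 : ℝ) ^ l2 := by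
    obtain ⟨l2, h⟩ := pow_unbounded_of_one_lt (max 2000 (4 * (n : ℝ) / (Real.exp (-99.8) / 6))) (show (1 : ℝ) < 2 by norm_num)
    exact ⟨l2, h.le⟩
  set q : ℕ := 2 ^ l2 with hq
  have hqR : ((q : ℕ) : ℝ) = (2 : ℝ) ^ l2 := by rw [hq]; push_cast; rfl
  have : NeZero n := ⟨by rw [hn]; positivity⟩
  have : NeZero q := ⟨by rw [hq]; positivity⟩
  have hnp : (0 : ℝ) < n := by rw [hnR]; positivity
  have hqp : (0 : ℝ) < q := by rw [hqR]; positivity
  have hQ : 2000 ≤ (q : ℝ) := by rw [hqR]; exact (le_max_left _ _).trans hl2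
  have hc : 4 * (n : ℝ) ≤ (Real.exp (-99.8) / 6) * q := by
    have h1 : 4 * (n : ℝ) / (Real.exp (-99.8) / 6) ≤ q := by rw [hqR]; exact (le_max_right _ _).trans hl2
    rw [div_le_iff₀ (by positivity)] at h1
    linarith
  have hη : 2 / Real.log L + 1 / √(n : ℝ) * L ≤ 1 / 2000 := by
    have h1 : L * 10000 ≤ √(n : ℝ) := by
      apply Real.le_sqrt_of_sq_le
      rw [hnR]; exact hl1
    have hL0 : 0 < L := by linarith
    have h2 : 1 / √(n : ℝ) * L ≤ 1 / 10000 := by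
      rw [div_mul_eq_mul_div, one_mul, div_le_iff₀ (by positivity)]
      linarith
    rw [hLlog]
    linarith
  have hL1' : 1 / Real.log L ≤ 1 / 20000 := by rw [hLlog]
  -- the coding of the inputs
  obtain ⟨m, hm1, hmX, hmY⟩ : ∃ m : ℕ, 1 ≤ m ∧ Fintype.card (X0 n q) ≤ 2 ^ m ∧ Fintype.card (Y0 n q) ≤ 2 ^ m := by
    refine ⟨Fintype.card (X0 n q) + Fintype.card (Y0 n q), ?_, ?_, ?_⟩
    · have : 0 < Fintype.card (X0 n q) := Fintype.card_pos
      omega
    · exact (Nat.lt_two_pow_self).le.trans (Nat.pow_le_pow_right (by norm_num) (Nat.le_add_right _ _))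
    · exact (Nat.lt_two_pow_self).le.trans (Nat.pow_le_pow_right (by norm_num) (Nat.le_add_left _ _))
  obtain ⟨iX⟩ : Nonempty (X0 n q ↪ (Fin m → Bool)) := Function.Embedding.nonempty_of_card_le (by simpa using hmX)
  obtain ⟨iY⟩ : Nonempty (Y0 n q ↪ (Fin m → Bool)) := Function.Embedding.nonempty_of_card_le (by simpa using hmY)
  have hX : ∀ x, Function.invFun iX (iX x) = x := fun x => Function.leftInverse_invFun iX.injective x
  have hY : ∀ x, Function.invFun iY (iY x) = x := fun x => Function.leftInverse_invFun iY.injective x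
  have hcard : Fintype.card (Fin m → Bool) = 2 ^ m := by simp
  have hnq : 2 * (n * q) = 2 ^ (1 + l1 + l2) := by rw [hn, hq, pow_add, pow_add]; ring
  refine ⟨m, fun x y => F0 (Function.invFun iX x) (Function.invFun iY y), push iX iY mu0, hm1,
    push_isDist _ _ ⟨mu0_nonneg, mu0_total⟩, (1 + l1 + l2 : ℝ) + 1.2, ?_, ?_⟩
  · refine lt_of_lt_of_le ?_ (ICext_lower hcard hcard hL1 hL1' hη hQ hc hX hY)
    rw [lt_div_iff₀ (Real.log_pos (by norm_num))]
    have h1 : Real.log (6 * ((n : ℝ) * q)) = Real.log 6 + (l1 + l2) * Real.log 2 := by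
      rw [Real.log_mul (by norm_num) (by positivity), Real.log_mul hnp.ne' hqp.ne', hnR, hqR, Real.log_pow, Real.log_pow]
      ring
    rw [h1]
    have := numeric
    nlinarith
  · -- the amortized protocol
    obtain ⟨r0, hr0⟩ : ∃ r0 : ℕ, 10 * ((m : ℝ) + 1) ≤ (2 : ℝ) ^ r0 := by
      obtain ⟨r0, h⟩ := pow_unbounded_of_one_lt (10 * ((m : ℝ) + 1)) (show (1 : ℝ) < 2 by norm_num)
      exact ⟨r0, h.le⟩
    filter_upwards [Filter.eventually_ge_atTop (10 * (r0 + 1))] with N hN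
    have hN0 : 0 < N := by omega
    have hNR : (0 : ℝ) < N := by exact_mod_cast hN0
    have hN1 : 10 * ((r0 : ℝ) + 1) ≤ N := by exact_mod_cast hN
    have hub := CC_upper (n := n) (q := q) hcard hnq hX hY N r0
    rw [div_le_iff₀ hNR]
    refine hub.trans ?_
    have h2 : ((m : ℝ) * N + N) * (1 / 2 ^ r0) ≤ N / 10 := by
      rw [mul_one_div, div_le_iff₀ (by positivity)]
      have : (N : ℝ) * (10 * ((m : ℝ) + 1)) ≤ N * 2 ^ r0 := mul_le_mul_of_nonneg_left hr0 hNR.le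
      nlinarith
    push_cast
    nlinarith

end Pool.Agent.X223.EXT
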